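import Pool.Agent.Q64.FR.Stm

set_option autoImplicit false

open MeasureTheory Set Filter Topology
open scoped Real ENNReal

namespace Pool.Agent.Q64.FR

theorem sI (hM : S_MOB) (hV : S_VAL) : S_I := by
  intro s x hs hs1 hx
  obtain ⟨h1, h2⟩ := hV s x hs hs1 hx
  obtain ⟨h3, h4⟩ := hM s x hs hs1 hx h1
  refine ⟨h3, ?_⟩
  rw [h4, h2]
  have hp : 0 < 1 - x ^ 2 := by
    have := abs_lt.mp hx
    nlinarith
  rw [← mul_assoc, ← Real.rpow_add hp]
  norm_num

theorem sONE1 (hI : S_I) (hB : S_BET) (hL : S_LL) (hP : S_PP) (hT : S_TAY) (hF : S_FUB) : S_ONE1 := by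
  intro s x hs hs1 hx
  have hs0 : 0 < s := by linarith
  obtain ⟨i1, e1⟩ := hI s x hs0 hs1 hx
  obtain ⟨-, -, ib, -⟩ := hB s hs0 hs1
  have el := hL s x hs hs1 hx
  have ep := hP s x hs hs1 hx
  set w : ℝ → ℝ := fun y => (1 - y ^ 2) ^ (s - 1) with hw
  -- integrability of the three pieces
  have i2 : IntegrableOn (fun y => w y * ((y - x) * |x - y| ^ (1 - 2 * s))) (Ioo (-1) 1) := by
    have : IntegrableOn (fun y => (y - x) * ((1 - y ^ 2) ^ (s - 1) * |x - y| ^ (1 - 2 * s))) (Ioo (-1) 1) := by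
      refine Integrable.bdd_mul (c := 2) i1 (by fun_prop) ?_
      refine (ae_restrict_mem measurableSet_Ioo).mono fun y hy => ?_
      have := abs_lt.mp hx
      rw [Real.norm_eq_abs, abs_le]
      constructor <;> linarith [hy.1, hy.2]
    refine this.congr_fun (fun y _ => ?_) measurableSet_Ioo
    simp only [hw]; ring
  have i3 : IntegrableOn (fun y => w y * ((y - x) ^ 2 * |x - y| ^ (1 - 2 * s))) (Ioo (-1) 1) := by
    have : IntegrableOn (fun y => (y - x) * (w y * ((y - x) * |x - y| ^ (1 - 2 * s)))) (Ioo (-1) 1) := by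
      refine Integrable.bdd_mul (c := 2) i2 (by fun_prop) ?_
      refine (ae_restrict_mem measurableSet_Ioo).mono fun y hy => ?_
      have := abs_lt.mp hx
      rw [Real.norm_eq_abs, abs_le]
      constructor <;> linarith [hy.1, hy.2]
    refine this.congr_fun (fun y _ => ?_) measurableSet_Ioo
    simp only [hw]; ring
  set g : ℝ → ℝ := fun y => (1 - y ^ 2) ^ (s - 1) * (1 - (1 + 2 * s) * y ^ 2) with hg
  have hsplit : ∀ y, g y * |x - y| ^ (1 - 2 * s) =
      (1 - (1 + 2 * s) * x ^ 2) * ((1 - y ^ 2) ^ (s - 1) * |x - y| ^ (1 - 2 * s)) +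
      (-2 * (1 + 2 * s) * x) * (w y * ((y - x) * |x - y| ^ (1 - 2 * s))) +
      (-(1 + 2 * s)) * (w y * ((y - x) ^ 2 * |x - y| ^ (1 - 2 * s))) := by
    intro y; simp only [hg, hw]; ring
  have ig : IntegrableOn (fun y => g y * |x - y| ^ (1 - 2 * s)) (Ioo (-1) 1) := by
    refine (((i1.const_mul (1 - (1 + 2 * s) * x ^ 2)).add (i2.const_mul (-2 * (1 + 2 * s) * x))).add
      (i3.const_mul (-(1 + 2 * s)))).congr ?_
    exact Eventually.of_forall fun y => (hsplit y).symm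
  have eg : ∫ y in Ioo (-1 : ℝ) 1, g y * |x - y| ^ (1 - 2 * s) =
      s * (2 * s - 1) * kk s * (1 - (1 + 2 * s) * x ^ 2) := by
    simp_rw [hsplit]
    set A : ℝ → ℝ := fun y => (1 - y ^ 2) ^ (s - 1) * |x - y| ^ (1 - 2 * s) with hA
    set B : ℝ → ℝ := fun y => w y * ((y - x) * |x - y| ^ (1 - 2 * s)) with hB'
    set D : ℝ → ℝ := fun y => w y * ((y - x) ^ 2 * |x - y| ^ (1 - 2 * s)) with hD
    have eA : ∫ y in Ioo (-1 : ℝ) 1, A y = kk s := e1
    have eB : ∫ y in Ioo (-1 : ℝ) 1, B y = -(2 - 2 * s) * kk s * x := el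
    have eD : ∫ y in Ioo (-1 : ℝ) 1, D y =
      (1 - s) * kk s + (3 - 2 * s) * (1 - s) * kk s * x ^ 2 := ep
    have k1 := integral_add (μ := volume.restrict (Ioo (-1 : ℝ) 1))
      (f := fun y => (1 - (1 + 2 * s) * x ^ 2) * A y + (-2 * (1 + 2 * s) * x) * B y)
      (g := fun y => (-(1 + 2 * s)) * D y) ((i1.const_mul _).add (i2.const_mul _)) (i3.const_mul _)
    have k2 := integral_add (μ := volume.restrict (Ioo (-1 : ℝ) 1))
      (f := fun y => (1 - (1 + 2 * s) * x ^ 2) * A y) (g := fun y => (-2 * (1 + 2 * s) * x) * B y)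
      (i1.const_mul _) (i2.const_mul _)
    rw [k1, k2, integral_const_mul, integral_const_mul, integral_const_mul, eA, eB, eD]
    ring
  have hgm : Measurable g := by
    simp only [hg]
    fun_prop
  obtain ⟨f1, f2⟩ := hF s x g hs hs1 hgm ig
  have hcong : ∀ h ∈ Ioi (0 : ℝ), dd (v 1 (s + 1)) x h * h ^ (-1 - 2 * s) =
      (2 * (s + 1)) * (h ^ (-1 - 2 * s) * ∫ y in Ioo (-1 : ℝ) 1, max (h - |y - x|) 0 * g y) := by
    intro h hh
    rw [hT s x h hs0 hs1 hh]
    ring
  constructor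
  · refine (IntegrableOn.congr_fun (f1.const_mul (2 * (s + 1))) (fun h hh => (hcong h hh).symm)
      measurableSet_Ioi)
  · rw [setIntegral_congr_fun measurableSet_Ioi hcong, integral_const_mul, f2, eg]
    have h1 : (2 * s - 1) ≠ 0 := by
      have : 0 < 2 * s - 1 := by linarith
      exact this.ne'
    have h2 : s ≠ 0 := hs0.ne'
    field_simp

end Pool.Agent.Q64.FR
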