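import Pool.Agent.Q64.FR.Stm

set_option autoImplicit false

open MeasureTheory Set Filter Topology Metric
open scoped Real ENNReal

namespace Pool.Agent.Q64.FR

theorem taylor_rpow (β c0 R : ℝ) (hc : 0 < c0) : ∃ M1 M2 : ℝ, 0 ≤ M1 ∧ 0 ≤ M2 ∧
    ∀ r0 ∈ Icc c0 R, ∀ r1 ∈ Icc c0 R,
      |r1 ^ β - r0 ^ β - β * r0 ^ (β - 1) * (r1 - r0)| ≤ M2 * (r1 - r0) ^ 2 ∧ |β * r0 ^ (β - 1)| ≤ M1 := by
  have hpos : ∀ r ∈ Icc c0 R, 0 < r := fun r hr => hc.trans_le hr.1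
  have hcont : ∀ γ : ℝ, ContinuousOn (fun r : ℝ => r ^ γ) (Icc c0 R) := fun γ =>
    continuousOn_id.rpow_const fun r hr => Or.inl (hpos r hr).ne'
  obtain ⟨M1, hM1⟩ := isCompact_Icc.exists_bound_of_continuousOn (continuousOn_const.mul (hcont (β - 1)) :
    ContinuousOn (fun r : ℝ => β * r ^ (β - 1)) (Icc c0 R))
  obtain ⟨K, hK⟩ := isCompact_Icc.exists_bound_of_continuousOn
    (continuousOn_const.mul (hcont (β - 1 - 1)) :
    ContinuousOn (fun r : ℝ => (β * (β - 1)) * r ^ (β - 1 - 1)) (Icc c0 R))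
  -- Lipschitz bound of the derivative
  have hlip : ∀ r ∈ Icc c0 R, ∀ r' ∈ Icc c0 R,
      ‖β * r ^ (β - 1) - β * r' ^ (β - 1)‖ ≤ K * ‖r - r'‖ := by
    intro r hr r' hr'
    refine (convex_Icc c0 R).norm_image_sub_le_of_norm_hasDerivWithin_le
      (f := fun r : ℝ => β * r ^ (β - 1)) (f' := fun r => (β * (β - 1)) * r ^ (β - 1 - 1)) ?_ hK hr' hr
    intro t ht
    have h1 := (Real.hasDerivAt_rpow_const (x := t) (p := β - 1) (Or.inl (hpos t ht).ne')).const_mul β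
    refine (h1.congr_deriv ?_).hasDerivWithinAt
    ring
  refine ⟨|M1|, |K|, abs_nonneg _, abs_nonneg _, fun r0 h0 r1 h1 => ⟨?_, ?_⟩⟩
  · have hseg : segment ℝ r0 r1 ⊆ Icc c0 R := (convex_Icc c0 R).segment_subset h0 h1
    have hmv := (convex_segment r0 r1).norm_image_sub_le_of_norm_hasDerivWithin_le
      (f := fun r : ℝ => r ^ β - β * r0 ^ (β - 1) * r)
      (f' := fun r => β * r ^ (β - 1) - β * r0 ^ (β - 1)) (C := |K| * |r1 - r0|)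
      (x := r0) (y := r1) ?_ ?_ (left_mem_segment ℝ r0 r1) (right_mem_segment ℝ r0 r1)
    · simp only [Real.norm_eq_abs] at hmv
      have e1 : r1 ^ β - β * r0 ^ (β - 1) * r1 - (r0 ^ β - β * r0 ^ (β - 1) * r0) =
          r1 ^ β - r0 ^ β - β * r0 ^ (β - 1) * (r1 - r0) := by ring
      rw [e1] at hmv
      calc _ ≤ |K| * |r1 - r0| * |r1 - r0| := hmv
        _ = |K| * (r1 - r0) ^ 2 := by rw [mul_assoc, abs_mul_abs_self, ← sq]
    · intro t ht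
      have h2 := (Real.hasDerivAt_rpow_const (x := t) (p := β) (Or.inl (hpos t (hseg ht)).ne'))
      have h3 := (hasDerivAt_id t).const_mul (β * r0 ^ (β - 1))
      refine ((h2.sub h3).congr_deriv ?_).hasDerivWithinAt
      ring
    · intro t ht
      refine (hlip t (hseg ht) r0 h0).trans ?_
      have h4 : ‖t - r0‖ ≤ |r1 - r0| := by
        rw [Real.norm_eq_abs]
        rw [segment_eq_uIcc] at ht
        exact abs_sub_left_of_mem_uIcc ht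
      exact mul_le_mul (le_abs_self K) h4 (norm_nonneg _) (abs_nonneg _)
  · have := hM1 r0 h0
    rw [Real.norm_eq_abs] at this
    exact this.trans (le_abs_self M1)

theorem t_BND : S_BND := by
  intro N β x a b hβ hxa hab
  set c : ℝ := a - ‖x‖ ^ 2 with hc
  have hc0 : 0 < c := by linarith
  have ha0 : 0 < a := lt_of_le_of_lt (sq_nonneg _) hxa
  have hb0 : 0 < b := ha0.trans_le hab
  obtain ⟨M1, M2, hM1, hM2, hT⟩ := taylor_rpow β (c / 2) b (by linarith)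
  set L : ℝ := 2 * ‖x‖ + 1 with hL
  have hL0 : 0 < L := by positivity
  set δ : ℝ := min 1 (c / (2 * L)) with hδ
  have hδ0 : 0 < δ := lt_min one_pos (by positivity)
  have hδ1 : δ ≤ 1 := min_le_left _ _
  have hδ2 : L * δ ≤ c / 2 := by
    have : δ ≤ c / (2 * L) := min_le_right _ _
    calc L * δ ≤ L * (c / (2 * L)) := by gcongr
      _ = c / 2 := by field_simp
  have hbb : 0 ≤ b ^ β := by positivity
  refine ⟨(2 * M2 * L ^ 2 + 2 * M1) + 4 * b ^ β / δ ^ 2, by positivity, fun τ hτ h => ?_⟩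
  have hmin0 : 0 ≤ min (‖h‖ ^ 2) 1 := by positivity
  rcases le_or_gt ‖h‖ δ with hh | hh
  · have hh1 : ‖h‖ ≤ 1 := hh.trans hδ1
    have hm : min (‖h‖ ^ 2) 1 = ‖h‖ ^ 2 := min_eq_left (by nlinarith [norm_nonneg h])
    set p : ℝ := inner ℝ x h with hp
    have hpabs : |p| ≤ ‖x‖ * ‖h‖ := abs_real_inner_le_norm x h
    have hp1 := abs_le.mp hpabs
    have e2 : ‖x + h‖ ^ 2 = ‖x‖ ^ 2 + 2 * p + ‖h‖ ^ 2 := by rw [norm_add_sq_real]
    have e3 : ‖x - h‖ ^ 2 = ‖x‖ ^ 2 - 2 * p + ‖h‖ ^ 2 := by rw [norm_sub_sq_real]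
    have hLh : 2 * (‖x‖ * ‖h‖) + ‖h‖ ^ 2 ≤ L * ‖h‖ := by
      rw [hL]; nlinarith [norm_nonneg h, norm_nonneg x]
    have hLh2 : L * ‖h‖ ≤ c / 2 := (mul_le_mul_of_nonneg_left hh hL0.le).trans hδ2
    have hr0 : τ - ‖x‖ ^ 2 ∈ Icc (c / 2) b := ⟨by linarith [hτ.1], by linarith [hτ.2, sq_nonneg ‖x‖]⟩
    have hrp : τ - ‖x + h‖ ^ 2 ∈ Icc (c / 2) b :=
      ⟨by rw [e2]; linarith [hτ.1, hp1.2], by linarith [hτ.2, sq_nonneg ‖x + h‖]⟩
    have hrm : τ - ‖x - h‖ ^ 2 ∈ Icc (c / 2) b :=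
      ⟨by rw [e3]; linarith [hτ.1, hp1.1], by linarith [hτ.2, sq_nonneg ‖x - h‖]⟩
    have t1 := hT _ hr0 _ hrp
    have t2 := hT _ hr0 _ hrm
    have m0 : bump τ β x = (τ - ‖x‖ ^ 2) ^ β := by
      unfold bump; rw [max_eq_left (by linarith [hr0.1])]
    have mp : bump τ β (x + h) = (τ - ‖x + h‖ ^ 2) ^ β := by
      unfold bump; rw [max_eq_left (by linarith [hrp.1])]
    have mm : bump τ β (x - h) = (τ - ‖x - h‖ ^ 2) ^ β := by
      unfold bump; rw [max_eq_left (by linarith [hrm.1])]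
    unfold dd
    rw [m0, mp, mm]
    set r0 := τ - ‖x‖ ^ 2 with hr0d
    set rp := τ - ‖x + h‖ ^ 2 with hrpd
    set rm := τ - ‖x - h‖ ^ 2 with hrmd
    have d1 : rp - r0 = -(2 * p + ‖h‖ ^ 2) := by rw [hrpd, hr0d, e2]; ring
    have d2 : rm - r0 = 2 * p - ‖h‖ ^ 2 := by rw [hrmd, hr0d, e3]; ring
    have q1 : (rp - r0) ^ 2 ≤ L ^ 2 * ‖h‖ ^ 2 := by
      rw [← mul_pow]
      refine sq_le_sq' ?_ ?_
      · rw [d1]; linarith [hp1.2]
      · rw [d1]; linarith [hp1.1, sq_nonneg ‖h‖, mul_nonneg hL0.le (norm_nonneg h)]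
    have q2 : (rm - r0) ^ 2 ≤ L ^ 2 * ‖h‖ ^ 2 := by
      rw [← mul_pow]
      refine sq_le_sq' ?_ ?_
      · rw [d2]; linarith [hp1.1]
      · rw [d2]; linarith [hp1.2, sq_nonneg ‖h‖, mul_nonneg hL0.le (norm_nonneg h)]
    set D := β * r0 ^ (β - 1) with hD
    have key : 2 * r0 ^ β - rp ^ β - rm ^ β =
        -(rp ^ β - r0 ^ β - D * (rp - r0)) - (rm ^ β - r0 ^ β - D * (rm - r0)) + 2 * D * ‖h‖ ^ 2 := by
      rw [d1, d2]; ring
    have k1 := abs_le.mp t1.1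
    have k2 := abs_le.mp t2.1
    have k3 := abs_le.mp t1.2
    rw [hm, key]
    have hq1 : M2 * (rp - r0) ^ 2 ≤ M2 * (L ^ 2 * ‖h‖ ^ 2) := by gcongr
    have hq2 : M2 * (rm - r0) ^ 2 ≤ M2 * (L ^ 2 * ‖h‖ ^ 2) := by gcongr
    have hh2 : 0 ≤ ‖h‖ ^ 2 := sq_nonneg _
    have hD1 : D * ‖h‖ ^ 2 ≤ M1 * ‖h‖ ^ 2 := mul_le_mul_of_nonneg_right k3.2 hh2
    have hD2 : -M1 * ‖h‖ ^ 2 ≤ D * ‖h‖ ^ 2 := mul_le_mul_of_nonneg_right k3.1 hh2
    have hex : 0 ≤ 4 * b ^ β / δ ^ 2 * ‖h‖ ^ 2 := by positivity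
    have total : ((2 * M2 * L ^ 2 + 2 * M1) + 4 * b ^ β / δ ^ 2) * ‖h‖ ^ 2 =
      2 * (M2 * (L ^ 2 * ‖h‖ ^ 2)) + 2 * (M1 * ‖h‖ ^ 2) + 4 * b ^ β / δ ^ 2 * ‖h‖ ^ 2 := by ring
    have hD2' : -(M1 * ‖h‖ ^ 2) ≤ D * ‖h‖ ^ 2 := by rw [← neg_mul]; exact hD2
    have e4 : 2 * D * ‖h‖ ^ 2 = 2 * (D * ‖h‖ ^ 2) := by ring
    rw [total, e4, abs_le]
    have k11 := k1.1
    have k12 := k1.2
    have k21 := k2.1
    have k22 := k2.2
    clear_value D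
    constructor <;> linarith
  · have hb1 : ∀ y : E N, bump τ β y ≤ b ^ β := fun y => by
      unfold bump
      refine Real.rpow_le_rpow (le_max_right _ _) (max_le ?_ hb0.le) hβ.le
      linarith [hτ.2, sq_nonneg ‖y‖]
    have hb2 : ∀ y : E N, 0 ≤ bump τ β y := fun y => by unfold bump; positivity
    have h1 : |dd (bump τ β) x h| ≤ 4 * b ^ β := by
      unfold dd
      rw [abs_le]
      constructor <;> linarith [hb1 x, hb1 (x + h), hb1 (x - h), hb2 x, hb2 (x + h), hb2 (x - h)]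
    have h2 : δ ^ 2 ≤ min (‖h‖ ^ 2) 1 := by
      refine le_min ?_ ?_
      · exact pow_le_pow_left₀ hδ0.le hh.le 2
      · nlinarith
    calc |dd (bump τ β) x h| ≤ 4 * b ^ β := h1
      _ = 4 * b ^ β / δ ^ 2 * δ ^ 2 := by field_simp
      _ ≤ 4 * b ^ β / δ ^ 2 * min (‖h‖ ^ 2) 1 := by gcongr
      _ ≤ _ := by
        refine mul_le_mul_of_nonneg_right ?_ hmin0
        have : 0 ≤ 2 * M2 * L ^ 2 + 2 * M1 := by positivity
        linarith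

end Pool.Agent.Q64.FR
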