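import Pool.Agent.Q64.FR.NDIM

set_option autoImplicit false

open MeasureTheory Set Filter Topology Metric
open scoped Real ENNReal

namespace Pool.Agent.Q64.FR

/-- `r ↦ (max r 0)^{s+1}` is differentiable with derivative `(s+1) (max r 0)^s`. -/
theorem hasDerivAt_pos_rpow {s : ℝ} (hs : 0 < s) (r : ℝ) :
    HasDerivAt (fun r : ℝ => (max r 0) ^ (s + 1)) ((s + 1) * (max r 0) ^ s) r := by
  rcases lt_trichotomy r 0 with h | h | h
  · have h1 : (fun r : ℝ => (max r 0) ^ (s + 1)) =ᶠ[𝓝 r] fun _ => (0 : ℝ) := by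
      filter_upwards [Iio_mem_nhds h] with t ht
      rw [max_eq_right (le_of_lt ht), Real.zero_rpow (by linarith)]
    rw [max_eq_right h.le, Real.zero_rpow hs.ne', mul_zero]
    exact (hasDerivAt_const r (0 : ℝ)).congr_of_eventuallyEq h1
  · subst h
    rw [max_self, Real.zero_rpow hs.ne', mul_zero]
    rw [hasDerivAt_iff_tendsto_slope]
    have h2 : Tendsto (fun t : ℝ => |t| ^ s) (𝓝[≠] 0) (𝓝 0) := by
      have h3 : ContinuousAt (fun t : ℝ => |t| ^ s) 0 :=
        (continuous_abs.rpow_const fun x => Or.inr hs.le).continuousAt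
      have h4 := h3.tendsto
      simp only [abs_zero, Real.zero_rpow hs.ne'] at h4
      exact h4.mono_left nhdsWithin_le_nhds
    refine squeeze_zero_norm' ?_ h2
    filter_upwards [self_mem_nhdsWithin] with t ht
    have ht0 : t ≠ 0 := ht
    rw [slope_def_field, max_self, Real.zero_rpow (by linarith), sub_zero, sub_zero, norm_div,
      Real.norm_eq_abs, Real.norm_eq_abs, div_le_iff₀ (abs_pos.mpr ht0)]
    have hm : 0 ≤ max t 0 := le_max_right _ _
    have hm2 : max t 0 ≤ |t| := max_le (le_abs_self t) (abs_nonneg t)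
    rw [abs_of_nonneg (by positivity), ← Real.rpow_add_one (abs_pos.mpr ht0).ne']
    exact Real.rpow_le_rpow hm hm2 (by linarith)
  · have h1 : (fun r : ℝ => (max r 0) ^ (s + 1)) =ᶠ[𝓝 r] fun r => r ^ (s + 1) := by
      filter_upwards [Ioi_mem_nhds h] with t ht
      rw [max_eq_left (le_of_lt ht)]
    rw [max_eq_left h.le]
    have h2 := Real.hasDerivAt_rpow_const (x := r) (p := s + 1) (Or.inl h.ne')
    simp only [add_sub_cancel_right] at h2
    exact h2.congr_of_eventuallyEq h1

theorem hasDerivAt_bump {N : ℕ} {s : ℝ} (hs : 0 < s) (y : E N) (τ : ℝ) :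
    HasDerivAt (fun τ : ℝ => bump τ (s + 1) y) ((s + 1) * bump τ s y) τ := by
  unfold bump
  have h1 := hasDerivAt_pos_rpow hs (τ - ‖y‖ ^ 2)
  have h2 : HasDerivAt (fun τ : ℝ => τ - ‖y‖ ^ 2) 1 τ := (hasDerivAt_id τ).sub_const _
  have h3 := h1.comp τ h2
  rw [mul_one] at h3
  exact h3

theorem t_DER (hB : S_BND) (hI : S_INT) (hN' : S_NDIM) : S_DER := by
  intro N s x hN hs hs1 hx
  have hs0 : 0 < s := by linarith
  have hx2 : ‖x‖ ^ 2 < 1 := by nlinarith [norm_nonneg x]
  -- interval of parameters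
  obtain ⟨a, ha1, ha2⟩ := exists_between hx2
  obtain ⟨C, hC0, hC⟩ := hB N s x a 2 hs0 ha1 (by linarith)
  set P : E N → ℝ := fun h => ‖h‖ ^ (-((N : ℝ) + 2 * s)) with hP
  have hPm : Measurable P := measurable_norm.pow_const _
  have hP0 : ∀ h, 0 ≤ P h := fun h => by simp only [hP]; positivity
  have hi := hI N s hN hs0 hs1
  have hderdd : ∀ (τ : ℝ) (h : E N), HasDerivAt (fun τ : ℝ => dd (bump τ (s + 1)) x h * P h)
      ((s + 1) * (dd (bump τ s) x h) * P h) τ := by
    intro τ h
    unfold dd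
    have h1 := ((((hasDerivAt_bump hs0 x τ).const_mul 2).sub (hasDerivAt_bump hs0 (x + h) τ)).sub
      (hasDerivAt_bump hs0 (x - h) τ)).mul_const (P h)
    refine h1.congr_deriv ?_
    ring
  have hmeas : ∀ τ : ℝ, ∀ β : ℝ, 0 < β → AEStronglyMeasurable (fun h : E N => dd (bump τ β) x h * P h) volume :=
    fun τ β hβ => (dd_meas (bump_cont τ hβ) x).aestronglyMeasurable.mul hPm.aestronglyMeasurable
  have key := hasDerivAt_integral_of_dominated_loc_of_deriv_le (μ := (volume : Measure (E N)))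
    (F := fun (τ : ℝ) (h : E N) => dd (bump τ (s + 1)) x h * P h)
    (F' := fun (τ : ℝ) (h : E N) => (s + 1) * (dd (bump τ s) x h) * P h)
    (x₀ := (1 : ℝ)) (s := Ioo a 2) (bound := fun h => (s + 1) * (C * (min (‖h‖ ^ 2) 1 * P h)))
    (Ioo_mem_nhds ha2 (by norm_num))
    (Eventually.of_forall fun τ => hmeas τ (s + 1) (by linarith))
    (int_dd_tau hB hI (N := N) (s := s) (β := s + 1) (τ := 1) (x := x) hN hs0 hs1 (by linarith) hx2)
    (by
      have := (hmeas 1 s hs0).const_mul (s + 1)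
      refine this.congr (Eventually.of_forall fun h => ?_)
      simp only []
      ring)
    (by
      refine Eventually.of_forall fun h τ hτ => ?_
      have h1 := hC τ ⟨hτ.1.le, hτ.2.le⟩ h
      rw [Real.norm_eq_abs, abs_mul, abs_mul, abs_of_nonneg (hP0 h),
        abs_of_nonneg (by linarith : (0 : ℝ) ≤ s + 1), mul_assoc]
      refine mul_le_mul_of_nonneg_left ?_ (by linarith)
      rw [← mul_assoc]
      exact mul_le_mul_of_nonneg_right h1 (hP0 h))
    ((hi.const_mul C).const_mul (s + 1))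
    (Eventually.of_forall fun h τ _ => hderdd τ h)
  have h1 := key.2
  -- the other side
  have h2 : (fun τ : ℝ => ∫ h : E N, dd (bump τ (s + 1)) x h * P h) =ᶠ[𝓝 1]
      fun τ => (s + 1) * kk s * (volume : Measure (E N)).toSphere.real univ *
        (τ - ‖x‖ ^ 2 - 2 * s / N * ‖x‖ ^ 2) := by
    filter_upwards [Ioo_mem_nhds ha2 (by norm_num : (1 : ℝ) < 2)] with τ hτ
    exact hN' N s τ x hN hs hs1 (ha1.trans hτ.1)
  have h3 : HasDerivAt (fun τ : ℝ => (s + 1) * kk s * (volume : Measure (E N)).toSphere.real univ *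
        (τ - ‖x‖ ^ 2 - 2 * s / N * ‖x‖ ^ 2))
      ((s + 1) * kk s * (volume : Measure (E N)).toSphere.real univ * 1) 1 :=
    (((hasDerivAt_id (1 : ℝ)).sub_const _).sub_const _).const_mul _
  have h4 := h3.congr_of_eventuallyEq h2
  have h5 := h1.unique h4
  have h6 : ∫ h : E N, (s + 1) * (dd (bump 1 s) x h) * P h =
      (s + 1) * ∫ h : E N, dd (bump 1 s) x h * P h := by
    rw [← integral_const_mul]
    refine integral_congr_ae (Eventually.of_forall fun h => ?_)
    simp only []
    ring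
  rw [h6] at h5
  have h7 : (s + 1) * (∫ h : E N, dd (bump 1 s) x h * P h) =
      (s + 1) * (kk s * (volume : Measure (E N)).toSphere.real univ) := by rw [h5]; ring
  exact mul_left_cancel₀ (by linarith : (s + 1) ≠ 0) h7

end Pool.Agent.Q64.FR
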