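import Pool.Agent.Q64.FR.Prob

set_option autoImplicit false

open MeasureTheory Set Filter Topology
open scoped Real ENNReal

namespace Pool.Agent.Q64.FR

theorem aNs_pos {N : ℕ} {s : ℝ} (hs : 0 < s) (hs1 : s < 1) : 0 < aNs N s := by
  unfold aNs
  have h1 : 0 < Real.Gamma ((N : ℝ) / 2 + s) := Real.Gamma_pos_of_pos (by positivity)
  have h2 : 0 < Real.Gamma (1 - s) := Real.Gamma_pos_of_pos (by linarith)
  have h3 : (0 : ℝ) < 2 ^ (2 * s) := by positivity
  positivity

theorem bump_cont {N : ℕ} (τ : ℝ) {β : ℝ} (hβ : 0 < β) : Continuous (bump (N := N) τ β) := by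
  unfold bump
  refine Continuous.rpow_const (by fun_prop) fun x => Or.inr hβ.le

theorem bump_nonneg {N : ℕ} (τ β : ℝ) (x : E N) : 0 ≤ bump τ β x := by
  unfold bump; positivity

theorem bump_le {N : ℕ} {β : ℝ} (hβ : 0 < β) (x : E N) : bump 1 β x ≤ 1 := by
  unfold bump
  refine Real.rpow_le_one (le_max_right _ _) ?_ hβ.le
  refine max_le ?_ zero_le_one
  nlinarith [sq_nonneg ‖x‖]

theorem dd_meas {N : ℕ} {u : E N → ℝ} (hu : Continuous u) (x : E N) : Continuous (dd u x) := by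
  unfold dd
  fun_prop

/-- integrability of second difference integrals -/
theorem int_dd (hB : S_BND) (hI : S_INT) {N : ℕ} {s β : ℝ} {x : E N} (hN : 1 ≤ N) (hs : 0 < s) (hs1 : s < 1)
    (hβ : 0 < β) (hx : ‖x‖ < 1) :
    Integrable (fun h : E N => dd (bump 1 β) x h * ‖h‖ ^ (-((N : ℝ) + 2 * s))) volume := by
  obtain ⟨C, hC0, hC⟩ := hB N β x 1 1 hβ (by nlinarith [norm_nonneg x]) le_rfl
  refine Integrable.mono' ((hI N s hN hs hs1).const_mul C) ?_ ?_
  · refine (dd_meas (bump_cont 1 hβ) x).aestronglyMeasurable.mul ?_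
    exact (measurable_norm.pow_const _).aestronglyMeasurable
  · refine Eventually.of_forall fun h => ?_
    have h1 := hC 1 ⟨le_rfl, le_rfl⟩ h
    have h2 : 0 ≤ ‖h‖ ^ (-((N : ℝ) + 2 * s)) := by positivity
    rw [Real.norm_eq_abs, abs_mul, abs_of_nonneg h2, ← mul_assoc]
    exact mul_le_mul_of_nonneg_right h1 h2

theorem phi_cont {N : ℕ} {s : ℝ} (hs : 0 < s) : Continuous (phi N s) := by
  unfold phi
  exact ((bump_cont 1 hs).const_smul (2 * s * (s + 1) / N : ℝ)).add (bump_cont 1 (by linarith))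

theorem phi_nonneg {N : ℕ} {s : ℝ} (hs : 0 < s) (x : E N) : 0 ≤ phi N s x := by
  unfold phi
  have h1 := bump_nonneg (N := N) 1 s x
  have h2 := bump_nonneg (N := N) 1 (s + 1) x
  positivity

theorem phi_le {N : ℕ} {s : ℝ} (hs : 0 < s) (x : E N) : phi N s x ≤ 2 * s * (s + 1) / N + 1 := by
  unfold phi
  have h1 := bump_le (N := N) hs x
  have h2 := bump_le (N := N) (β := s + 1) (by linarith) x
  have h3 : (0 : ℝ) ≤ 2 * s * (s + 1) / N := by positivity
  nlinarith

theorem dd_phi {N : ℕ} {s : ℝ} (x h : E N) :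
    dd (phi N s) x h = 2 * s * (s + 1) / N * dd (bump 1 s) x h + dd (bump 1 (s + 1)) x h := by
  unfold dd phi
  ring

/-- the constant -/
noncomputable def kap (N : ℕ) (s : ℝ) : ℝ :=
  aNs N s * (1 / 2 * (kk s * (volume : Measure (E N)).toSphere.real univ * (s + 1) * (1 + 2 * s / N)))

theorem kap_pos (hBet : S_BET) (hQ : S_QUAD) {N : ℕ} {s : ℝ} (hN : 1 ≤ N) (hs : 0 < s) (hs1 : s < 1) :
    0 < kap N s := by
  unfold kap
  have h1 := aNs_pos (N := N) hs hs1
  have h2 := (hBet s hs hs1).2.1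
  have h3 := (hQ N hN).1
  positivity

theorem fracLap_phi (hB : S_BND) (hI : S_INT) (hN' : S_NDIM) (hD : S_DER) (hPV : S_PV) {N : ℕ} {s : ℝ} {x : E N}
    (hN : 1 ≤ N) (hs : 1 / 2 < s) (hs1 : s < 1) (hx : ‖x‖ < 1) :
    HasFracLap s (phi N s) x (kap N s * (1 - ‖x‖ ^ 2)) := by
  have hs0 : 0 < s := by linarith
  have hx2 : ‖x‖ ^ 2 < 1 := by nlinarith [norm_nonneg x]
  obtain ⟨C1, hC10, hC1⟩ := hB N s x 1 1 hs0 hx2 le_rfl
  obtain ⟨C2, hC20, hC2⟩ := hB N (s + 1) x 1 1 (by linarith) hx2 le_rfl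
  set α : ℝ := 2 * s * (s + 1) / N with hα
  have hα0 : 0 ≤ α := by positivity
  have hb : ∀ h : E N, |dd (phi N s) x h| ≤ (α * C1 + C2 + (α + 1)) * min (‖h‖ ^ 2) 1 := by
    intro h
    rw [dd_phi, ← hα]
    have a1 := hC1 1 ⟨le_rfl, le_rfl⟩ h
    have a2 := hC2 1 ⟨le_rfl, le_rfl⟩ h
    have a3 : 0 ≤ min (‖h‖ ^ 2) 1 := by positivity
    calc |α * dd (bump 1 s) x h + dd (bump 1 (s + 1)) x h|
        ≤ |α * dd (bump 1 s) x h| + |dd (bump 1 (s + 1)) x h| := abs_add_le _ _
      _ = α * |dd (bump 1 s) x h| + |dd (bump 1 (s + 1)) x h| := by rw [abs_mul, abs_of_nonneg hα0]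
      _ ≤ α * (C1 * min (‖h‖ ^ 2) 1) + C2 * min (‖h‖ ^ 2) 1 := by gcongr
      _ ≤ (α * C1 + C2 + (α + 1)) * min (‖h‖ ^ 2) 1 := by nlinarith
  have hpv := hPV N s (phi N s) x (α * C1 + C2 + (α + 1)) hN hs0 hs1 (phi_cont hs0).measurable
    (fun y => by
      rw [abs_of_nonneg (phi_nonneg hs0 y)]
      have := phi_le (N := N) hs0 y
      have : 0 ≤ α * C1 + C2 := by positivity
      linarith) hb
  have i1 := int_dd hB hI (N := N) (x := x) hN hs0 hs1 hs0 hx
  have i2 := int_dd hB hI (N := N) (β := s + 1) (x := x) hN hs0 hs1 (by linarith) hx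
  have e1 := hD N s x hN hs hs1 hx
  have e2 := hN' N s 1 x hN hs hs1 hx2
  have e3 : ∫ h : E N, dd (phi N s) x h * ‖h‖ ^ (-((N : ℝ) + 2 * s)) =
      α * (kk s * (volume : Measure (E N)).toSphere.real univ) +
      (s + 1) * kk s * (volume : Measure (E N)).toSphere.real univ * (1 - ‖x‖ ^ 2 - 2 * s / N * ‖x‖ ^ 2) := by
    have hh : ∀ h : E N, dd (phi N s) x h * ‖h‖ ^ (-((N : ℝ) + 2 * s)) =
        α * (dd (bump 1 s) x h * ‖h‖ ^ (-((N : ℝ) + 2 * s))) +
        dd (bump 1 (s + 1)) x h * ‖h‖ ^ (-((N : ℝ) + 2 * s)) := by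
      intro h; rw [dd_phi]; ring
    simp_rw [hh]
    rw [integral_add (i1.const_mul _) i2, integral_const_mul, e1, e2]
  rw [e3] at hpv
  unfold HasFracLap
  have := hpv.const_mul (aNs N s)
  refine this.trans (le_of_eq ?_)
  congr 1
  unfold kap
  have hN0 : (N : ℝ) ≠ 0 := by
    have : (1 : ℝ) ≤ N := by exact_mod_cast hN
    positivity
  rw [hα]
  field_simp
  ring

theorem cRes_mul_phi {N : ℕ} {s κ : ℝ} (hN : 1 ≤ N) (hs : 0 < s) {x : E N} (hx : ‖x‖ < 1) :
    cRes N s κ x * phi N s x = κ * (1 - ‖x‖ ^ 2) := by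
  have hx2 : 0 < 1 - ‖x‖ ^ 2 := by nlinarith [norm_nonneg x]
  unfold cRes phi bump
  rw [max_eq_left hx2.le, Real.rpow_add_one hx2.ne']
  have hN0 : (0 : ℝ) < N := by
    have : (1 : ℝ) ≤ N := by exact_mod_cast hN
    linarith
  have h1 : 0 < 2 * s * (s + 1) / N + (1 - ‖x‖ ^ 2) := by positivity
  have h2 : (1 - ‖x‖ ^ 2) ^ (1 - s) * (1 - ‖x‖ ^ 2) ^ s = 1 - ‖x‖ ^ 2 := by
    rw [← Real.rpow_add hx2]; norm_num
  rw [div_mul_eq_mul_div, div_eq_iff h1.ne']
  calc κ * (1 - ‖x‖ ^ 2) ^ (1 - s) * (2 * s * (s + 1) / N * (1 - ‖x‖ ^ 2) ^ s +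
        (1 - ‖x‖ ^ 2) ^ s * (1 - ‖x‖ ^ 2))
      = κ * ((1 - ‖x‖ ^ 2) ^ (1 - s) * (1 - ‖x‖ ^ 2) ^ s) * (2 * s * (s + 1) / N + (1 - ‖x‖ ^ 2)) := by ring
    _ = _ := by rw [h2]

theorem cRes_cont {N : ℕ} {s κ : ℝ} (hN : 1 ≤ N) (hs : 0 < s) (hs1 : s < 1) : Continuous (cRes N s κ) := by
  unfold cRes
  have hN0 : (0 : ℝ) < N := by
    have : (1 : ℝ) ≤ N := by exact_mod_cast hN
    linarith
  refine Continuous.div ?_ (by fun_prop) fun x => ?_
  · refine continuous_const.mul (Continuous.rpow_const (by fun_prop) fun x => Or.inr (by linarith))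
  · have : 0 ≤ max (1 - ‖x‖ ^ 2) 0 := le_max_right _ _
    positivity

theorem cRes_nonneg {N : ℕ} {s κ : ℝ} (hs : 0 < s) (hκ : 0 < κ) (x : E N) : 0 ≤ cRes N s κ x := by
  unfold cRes
  have : 0 ≤ max (1 - ‖x‖ ^ 2) 0 := le_max_right _ _
  positivity

theorem cRes_pos {N : ℕ} {s κ : ℝ} (hN : 1 ≤ N) (hs : 0 < s) (hκ : 0 < κ) {x : E N} (hx : ‖x‖ < 1) :
    0 < cRes N s κ x := by
  unfold cRes
  have hN0 : (0 : ℝ) < N := by
    have : (1 : ℝ) ≤ N := by exact_mod_cast hN
    linarith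
  have hx2 : 0 < 1 - ‖x‖ ^ 2 := by nlinarith [norm_nonneg x]
  have : 0 < max (1 - ‖x‖ ^ 2) 0 := lt_max_of_lt_left hx2
  positivity

theorem cRes_le {N : ℕ} {s κ : ℝ} (hN : 1 ≤ N) (hs : 0 < s) (hs1 : s < 1) (hκ : 0 < κ) (x : E N) :
    cRes N s κ x ≤ κ / (2 * s * (s + 1) / N) := by
  unfold cRes
  have hN0 : (0 : ℝ) < N := by
    have : (1 : ℝ) ≤ N := by exact_mod_cast hN
    linarith
  have h0 : 0 ≤ max (1 - ‖x‖ ^ 2) 0 := le_max_right _ _
  have h1 : max (1 - ‖x‖ ^ 2) 0 ≤ 1 := max_le (by nlinarith [sq_nonneg ‖x‖]) zero_le_one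
  have h2 : (max (1 - ‖x‖ ^ 2) 0) ^ (1 - s) ≤ 1 := Real.rpow_le_one h0 h1 (by linarith)
  have h3 : 0 < 2 * s * (s + 1) / N := by positivity
  refine div_le_div₀ hκ.le ?_ h3 (by linarith)
  nlinarith

theorem isTest_phi (hB : S_BND) (hI : S_INT) (hN' : S_NDIM) (hD : S_DER) (hPV : S_PV) {N : ℕ} {s : ℝ}
    (hN : 1 ≤ N) (hs : 1 / 2 < s) (hs1 : s < 1) :
    IsTest s (Metric.ball (0 : E N) 1) (phi N s) (fun x => kap N s * (1 - ‖x‖ ^ 2)) := by
  have hs0 : 0 < s := by linarith
  refine ⟨phi_cont hs0, ?_, ?_, ⟨|kap N s|, ?_⟩⟩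
  · intro x hx
    have h1 : 1 < ‖x‖ := by
      by_contra hc
      push Not at hc
      apply hx
      rw [closure_ball (0 : E N) one_ne_zero]
      simpa using hc
    have h2 : max (1 - ‖x‖ ^ 2) 0 = 0 := max_eq_right (by nlinarith)
    unfold phi bump
    rw [h2, Real.zero_rpow hs0.ne', Real.zero_rpow (by linarith)]
    ring
  · intro x hx
    exact fracLap_phi hB hI hN' hD hPV hN hs hs1 (by simpa using hx)
  · intro x hx
    have hx' : ‖x‖ < 1 := by simpa using hx
    rw [abs_mul]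
    have : |1 - ‖x‖ ^ 2| ≤ 1 := by
      rw [abs_le]
      constructor <;> nlinarith [norm_nonneg x]
    exact mul_le_of_le_one_right (abs_nonneg _) this

/-- No weak solution at resonance. -/
theorem no_sol (hB : S_BND) (hI : S_INT) (hN' : S_NDIM) (hD : S_DER) (hPV : S_PV) {N : ℕ} {s : ℝ}
    (hN : 1 ≤ N) (hs : 1 / 2 < s) (hs1 : s < 1) (hκ : 0 < kap N s)
    (μ f : E N → ℝ) (hμm : MemLp μ ∞ (volume.restrict (Metric.ball (0 : E N) 1)))
    (hμ : ∀ᵐ x ∂(volume.restrict (Metric.ball (0 : E N) 1)), 0 ≤ μ x)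
    (hf : IntegrableOn f (Metric.ball (0 : E N) 1))
    (hfp : 0 < ∫ x in Metric.ball (0 : E N) 1, f x * phi N s x) (lam : ℝ) (hlam : 0 < lam) (u : E N → ℝ) :
    ¬ IsWeakSol s (Metric.ball (0 : E N) 1) (cRes N s (kap N s)) μ f lam u := by
  intro hu
  have hs0 : 0 < s := by linarith
  set B := Metric.ball (0 : E N) 1 with hBdef
  have ht := isTest_phi hB hI hN' hD hPV (N := N) hN hs hs1
  have hw := hu.weak _ _ ht
  -- integrability
  have hphi_le : ∀ x : E N, ‖phi N s x‖ ≤ 2 * s * (s + 1) / N + 1 := fun x => by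
    rw [Real.norm_eq_abs, abs_of_nonneg (phi_nonneg hs0 x)]; exact phi_le hs0 x
  have hphim : ∀ μ' : Measure (E N), AEStronglyMeasurable (phi N s) μ' := fun μ' =>
    (phi_cont hs0).aestronglyMeasurable
  have icu : IntegrableOn (fun x => cRes N s (kap N s) x * u x * phi N s x) B := by
    have h1 : IntegrableOn (fun x => (cRes N s (kap N s) x * phi N s x) * u x) B := by
      refine Integrable.bdd_mul
        (c := kap N s / (2 * s * (s + 1) / N) * (2 * s * (s + 1) / N + 1)) hu.int_u ?_ ?_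
      · exact ((cRes_cont hN hs0 hs1).mul (phi_cont hs0)).aestronglyMeasurable
      · refine Eventually.of_forall fun x => ?_
        rw [norm_mul]
        refine mul_le_mul ?_ (hphi_le x) (norm_nonneg _) ?_
        · rw [Real.norm_eq_abs, abs_of_nonneg (cRes_nonneg hs0 hκ x)]
          exact cRes_le hN hs0 hs1 hκ x
        · positivity
    refine h1.congr (Eventually.of_forall fun x => ?_)
    simp only []
    ring
  have iD : IntegrableOn (fun x => (D2 s u x).toReal) B :=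
    integrable_toReal_of_lintegral_ne_top hu.D2_meas hu.D2_fin.ne
  have iμD : IntegrableOn (fun x => μ x * (D2 s u x).toReal * phi N s x) B := by
    have h1 : IntegrableOn (fun x => (phi N s x * μ x) * (D2 s u x).toReal) B := by
      obtain ⟨M, hM⟩ : ∃ M : ℝ, ∀ᵐ x ∂(volume.restrict B), ‖μ x‖ ≤ M := by
        refine ⟨(eLpNorm μ ∞ (volume.restrict B)).toReal, ?_⟩
        have h2 := ae_le_eLpNormEssSup (f := μ) (μ := volume.restrict B)
        have h3 : eLpNormEssSup μ (volume.restrict B) ≠ ∞ := by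
          have := hμm.2.ne
          rwa [eLpNorm_exponent_top] at this
        filter_upwards [h2] with x hx
        rw [eLpNorm_exponent_top]
        have := (ENNReal.toReal_le_toReal (by simp) h3).2 hx
        simpa using this
      refine Integrable.bdd_mul (c := (2 * s * (s + 1) / N + 1) * M) iD ?_ ?_
      · exact (hphim _).mul hμm.1
      · filter_upwards [hM] with x hx
        rw [norm_mul]
        exact mul_le_mul (hphi_le x) hx (norm_nonneg _) (by positivity)
    refine h1.congr (Eventually.of_forall fun x => ?_)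
    simp only []
    ring
  have ifp : IntegrableOn (fun x => f x * phi N s x) B := by
    have h1 : IntegrableOn (fun x => phi N s x * f x) B := by
      refine Integrable.bdd_mul (c := (2 * s * (s + 1) / N + 1)) hf (hphim _) ?_
      exact Eventually.of_forall fun x => hphi_le x
    refine h1.congr (Eventually.of_forall fun x => ?_)
    simp only []
    ring
  have e1 : ∫ x in B, u x * (kap N s * (1 - ‖x‖ ^ 2)) =
      ∫ x in B, cRes N s (kap N s) x * u x * phi N s x := by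
    refine setIntegral_congr_fun Metric.isOpen_ball.measurableSet fun x hx => ?_
    have hx' : ‖x‖ < 1 := by simpa [hBdef] using hx
    rw [← cRes_mul_phi (κ := kap N s) hN hs0 hx']
    ring
  have e2 : ∫ x in B, (cRes N s (kap N s) x * u x + μ x * (D2 s u x).toReal + lam * f x) * phi N s x =
      (∫ x in B, cRes N s (kap N s) x * u x * phi N s x) + (∫ x in B, μ x * (D2 s u x).toReal * phi N s x) +
      lam * ∫ x in B, f x * phi N s x := by
    have hh : ∀ x, (cRes N s (kap N s) x * u x + μ x * (D2 s u x).toReal + lam * f x) * phi N s x =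
        (cRes N s (kap N s) x * u x * phi N s x + μ x * (D2 s u x).toReal * phi N s x) +
          lam * (f x * phi N s x) := fun x => by ring
    simp_rw [hh]
    have k1 := integral_add (μ := volume.restrict B)
      (f := fun x => cRes N s (kap N s) x * u x * phi N s x + μ x * (D2 s u x).toReal * phi N s x)
      (g := fun x => lam * (f x * phi N s x)) (icu.add iμD) (ifp.const_mul _)
    have k2 := integral_add (μ := volume.restrict B)
      (f := fun x => cRes N s (kap N s) x * u x * phi N s x)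
      (g := fun x => μ x * (D2 s u x).toReal * phi N s x) icu iμD
    rw [k1, k2, integral_const_mul]
  have e3 : 0 ≤ ∫ x in B, μ x * (D2 s u x).toReal * phi N s x := by
    refine integral_nonneg_of_ae ?_
    filter_upwards [hμ] with x hx
    have := phi_nonneg (N := N) hs0 x
    have : 0 ≤ (D2 s u x).toReal := ENNReal.toReal_nonneg
    simp only [Pi.zero_apply]
    positivity
  rw [e1, e2] at hw
  have : 0 < lam * ∫ x in B, f x * phi N s x := by positivity
  linarith

theorem ball_C2 {N : ℕ} : C2Boundary (Metric.ball (0 : E N) 1) := by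
  intro p hp
  refine ⟨{x | x ≠ 0}, fun x => ‖x‖ ^ 2 - 1, isOpen_ne, ?_, ?_, ?_, ?_, ?_⟩
  · intro h0
    rw [frontier_ball (0 : E N) one_ne_zero] at hp
    simp [h0] at hp
  · exact (contDiff_norm_sq ℝ).sub contDiff_const
  · intro x hx h0
    have h1 : HasFDerivAt (fun x : E N => ‖x‖ ^ 2 - 1) (2 • (innerSL ℝ x)) x :=
      (hasStrictFDerivAt_norm_sq x).hasFDerivAt.sub_const 1
    rw [h1.fderiv] at h0
    have h2 := congrArg (fun L : E N →L[ℝ] ℝ => L x) h0
    simp at h2
    exact hx h2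
  · ext x
    simp only [mem_inter_iff, Metric.mem_ball, dist_zero_right, Set.mem_ofPred_eq, and_congr_left_iff]
    intro _
    constructor
    · intro h; nlinarith [norm_nonneg x]
    · intro h; nlinarith [norm_nonneg x]
  · rw [frontier_ball (0 : E N) one_ne_zero]
    ext x
    simp only [mem_inter_iff, mem_sphere_iff_norm, sub_zero, Set.mem_ofPred_eq, and_congr_left_iff]
    intro _
    constructor
    · intro h; rw [h]; norm_num
    · intro h
      have : (‖x‖ - 1) * (‖x‖ + 1) = 0 := by linarith [h, sq (‖x‖)]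
      rcases mul_eq_zero.mp this with h' | h'
      · linarith
      · linarith [norm_nonneg x]

theorem ball_vol_pos {N : ℕ} : 0 < volume (Metric.ball (0 : E N) 1) :=
  Metric.measure_ball_pos _ _ one_pos

theorem final (hBet : S_BET) (hQ : S_QUAD) (hB : S_BND) (hI : S_INT) (hN' : S_NDIM) (hD : S_DER)
    (hPV : S_PV) : ∀ (N : ℕ) (s : ℝ), 2 ≤ N → 1 / 2 < s → s < 1 →
    (∃ κ : ℝ, 0 < κ ∧ Continuous (cRes N s κ) ∧ (∀ x, 0 ≤ cRes N s κ x) ∧
      (∀ x ∈ Metric.ball (0 : E N) 1, 0 < cRes N s κ x) ∧ (∃ C : ℝ, ∀ x, cRes N s κ x ≤ C) ∧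
      IsTest s (Metric.ball (0 : E N) 1) (phi N s) (fun x => cRes N s κ x * phi N s x) ∧
      ∀ μ f : E N → ℝ, MemLp μ ∞ (volume.restrict (Metric.ball (0 : E N) 1)) →
        (∀ᵐ x ∂(volume.restrict (Metric.ball (0 : E N) 1)), 0 ≤ μ x) →
        IntegrableOn f (Metric.ball (0 : E N) 1) →
        0 < ∫ x in Metric.ball (0 : E N) 1, f x * phi N s x →
        ∀ lam : ℝ, 0 < lam → ∀ u : E N → ℝ,
          ¬ IsWeakSol s (Metric.ball (0 : E N) 1) (cRes N s κ) μ f lam u) ∧
    ¬ Q1 N s := by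
  intro N s hN hs hs1
  have hN1 : 1 ≤ N := by omega
  have hs0 : 0 < s := by linarith
  have hκ := kap_pos hBet hQ (N := N) hN1 hs0 hs1
  set B := Metric.ball (0 : E N) 1 with hBdef
  have hBm : MeasurableSet B := Metric.isOpen_ball.measurableSet
  have hfin : IsFiniteMeasure (volume.restrict B) := ⟨by
    rw [Measure.restrict_apply_univ]; exact measure_ball_lt_top⟩
  have htest : IsTest s B (phi N s) (fun x => cRes N s (kap N s) x * phi N s x) := by
    have ht := isTest_phi hB hI hN' hD hPV (N := N) hN1 hs hs1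
    refine ⟨ht.cont, ht.supp, ?_, ?_⟩
    · intro x hx
      have hx' : ‖x‖ < 1 := by simpa [hBdef] using hx
      have := ht.lap x hx
      rwa [← cRes_mul_phi (κ := kap N s) hN1 hs0 hx'] at this
    · obtain ⟨C, hC⟩ := ht.bdd
      refine ⟨C, fun x hx => ?_⟩
      have hx' : ‖x‖ < 1 := by simpa [hBdef] using hx
      rw [cRes_mul_phi (κ := kap N s) hN1 hs0 hx']
      exact hC x hx
  have hno := fun μ f h1 h2 h3 h4 => no_sol hB hI hN' hD hPV (N := N) hN1 hs hs1 hκ μ f h1 h2 h3 h4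
  refine ⟨⟨kap N s, hκ, cRes_cont hN1 hs0 hs1, fun x => cRes_nonneg hs0 hκ x,
    fun x hx => cRes_pos hN1 hs0 hκ (by simpa [hBdef] using hx),
    ⟨_, fun x => cRes_le hN1 hs0 hs1 hκ x⟩, htest, hno⟩, ?_⟩
  intro hQ1
  have hc : MemLp (cRes N s (kap N s)) ∞ (volume.restrict B) :=
    memLp_top_of_bound (cRes_cont hN1 hs0 hs1).aestronglyMeasurable (kap N s / (2 * s * (s + 1) / N))
      (Eventually.of_forall fun x => by
        rw [Real.norm_eq_abs, abs_of_nonneg (cRes_nonneg hs0 hκ x)]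
        exact cRes_le hN1 hs0 hs1 hκ x)
  have hne : ¬ (cRes N s (kap N s) =ᵐ[volume.restrict B] 0) := by
    intro h0
    have h1 : ∀ᵐ x ∂(volume.restrict B), x ∉ B := by
      filter_upwards [h0] with x hx hxB
      have := cRes_pos (s := s) (κ := kap N s) hN1 hs0 hκ (x := x) (by simpa [hBdef] using hxB)
      rw [hx] at this
      exact lt_irrefl _ this
    have h2 : (volume.restrict B) B = 0 := by
      have := (ae_iff.mp h1)
      simpa using this
    rw [Measure.restrict_apply_self] at h2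
    exact (ball_vol_pos (N := N)).ne' h2
  obtain ⟨lam₀, hl0, hl⟩ := hQ1 B Metric.isOpen_ball Metric.isBounded_ball
    ((convex_ball (0 : E N) 1).isConnected ⟨0, Metric.mem_ball_self one_pos⟩) ball_C2
    (fun _ => 1) (fun _ => 1) (cRes N s (kap N s)) ((N : ℝ) / (2 * s) + 1) 1 (by linarith)
    (memLp_const _) (memLp_const _) hc
    (Eventually.of_forall fun x => cRes_nonneg hs0 hκ x) hne one_pos (Eventually.of_forall fun x => le_rfl)
  obtain ⟨u₁, u₂, -, -, h1, -, -⟩ := hl (lam₀ / 2) (by linarith) (by linarith)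
  refine hno (fun _ => 1) (fun _ => 1) (memLp_const _) (Eventually.of_forall fun x => zero_le_one)
    (integrable_const _) ?_ (lam₀ / 2) (by linarith) u₁ h1
  simp only [one_mul]
  rw [setIntegral_pos_iff_support_of_nonneg_ae]
  · have hsub : B ⊆ Function.support (phi N s) ∩ B := by
      intro x hx
      refine ⟨?_, hx⟩
      have hx' : ‖x‖ < 1 := by simpa [hBdef] using hx
      have h1 := cRes_mul_phi (κ := kap N s) hN1 hs0 hx'
      have h2 : 0 < kap N s * (1 - ‖x‖ ^ 2) := by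
        have : 0 < 1 - ‖x‖ ^ 2 := by nlinarith [norm_nonneg x]
        positivity
      intro h0
      rw [h0, mul_zero] at h1
      linarith
    exact lt_of_lt_of_le ball_vol_pos (measure_mono hsub)
  · exact Eventually.of_forall fun x => phi_nonneg hs0 x
  · refine Integrable.mono' (g := fun _ => 2 * s * (s + 1) / N + 1) (integrable_const _)
      (phi_cont hs0).aestronglyMeasurable (Eventually.of_forall fun x => ?_)
    rw [Real.norm_eq_abs, abs_of_nonneg (phi_nonneg hs0 x)]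
    exact phi_le hs0 x

end Pool.Agent.Q64.FR
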