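import Pool.Agent.Q64.FR.Stm

set_option autoImplicit false

open MeasureTheory Set Filter Topology Metric
open scoped Real ENNReal

namespace Pool.Agent.Q64.FR

theorem pow_rpow {N : ℕ} (hN : 1 ≤ N) (s : ℝ) {y : ℝ} (hy : 0 < y) :
    y ^ (N - 1) * y ^ (-((N : ℝ) + 2 * s)) = y ^ (-1 - 2 * s) := by
  rw [← Real.rpow_natCast, ← Real.rpow_add hy]
  congr 1
  rw [Nat.cast_sub hN]
  push_cast
  ring

theorem t_INT : S_INT := by
  intro N s hN hs hs1
  have : Nonempty (Fin N) := ⟨⟨0, hN⟩⟩
  have : Nontrivial (E N) := inferInstance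
  have hdim : Module.finrank ℝ (E N) = N := by simp
  have key := integrable_fun_norm_addHaar (μ := (volume : Measure (E N)))
    (f := fun r : ℝ => min (r ^ 2) 1 * r ^ (-((N : ℝ) + 2 * s)))
  rw [hdim] at key
  rw [key]
  have h0 : IntegrableOn (fun y : ℝ => min (y ^ 2) 1 * y ^ (-1 - 2 * s)) (Ioi 0) := by
    rw [← Ioc_union_Ioi_eq_Ioi (zero_le_one' ℝ)]
    refine IntegrableOn.union ?_ ?_
    · have h1 : IntegrableOn (fun y : ℝ => y ^ (1 - 2 * s)) (Ioc 0 1) := by
        have := (intervalIntegral.intervalIntegrable_rpow' (a := 0) (b := 1) (r := 1 - 2 * s) (by linarith)).1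
        exact this
      refine h1.congr_fun (fun y hy => ?_) measurableSet_Ioc
      have hy0 : 0 < y := hy.1
      have h2 : min (y ^ 2) 1 = y ^ 2 := min_eq_left (by nlinarith [hy.2])
      simp only []
      rw [h2, ← Real.rpow_natCast, ← Real.rpow_add hy0]
      congr 1
      push_cast
      ring
    · have h1 : IntegrableOn (fun y : ℝ => y ^ (-1 - 2 * s)) (Ioi 1) :=
        integrableOn_Ioi_rpow_of_lt (by linarith) one_pos
      refine h1.congr_fun (fun y hy => ?_) measurableSet_Ioi
      have hy1 : 1 < y := hy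
      have h2 : min (y ^ 2) 1 = 1 := min_eq_right (by nlinarith)
      simp only []
      rw [h2, one_mul]
  refine h0.congr_fun (fun y hy => ?_) measurableSet_Ioi
  simp only [smul_eq_mul]
  rw [← pow_rpow hN s hy]
  ring

end Pool.Agent.Q64.FR
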