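import Pool.Agent.Q64.FR.INT
import Pool.Agent.Q64.FR.Fin

set_option autoImplicit false

open MeasureTheory Set Filter Topology Metric
open scoped Real ENNReal

namespace Pool.Agent.Q64.FR

theorem int_dd_tau (hB : S_BND) (hI : S_INT) {N : ℕ} {s β τ : ℝ} {x : E N} (hN : 1 ≤ N) (hs : 0 < s)
    (hs1 : s < 1) (hβ : 0 < β) (hx : ‖x‖ ^ 2 < τ) :
    Integrable (fun h : E N => dd (bump τ β) x h * ‖h‖ ^ (-((N : ℝ) + 2 * s))) volume := by
  obtain ⟨C, hC0, hC⟩ := hB N β x τ τ hβ hx le_rfl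
  refine Integrable.mono' ((hI N s hN hs hs1).const_mul C) ?_ ?_
  · refine (dd_meas (bump_cont τ hβ) x).aestronglyMeasurable.mul ?_
    exact (measurable_norm.pow_const _).aestronglyMeasurable
  · refine Eventually.of_forall fun h => ?_
    have h1 := hC τ ⟨le_rfl, le_rfl⟩ h
    have h2 : 0 ≤ ‖h‖ ^ (-((N : ℝ) + 2 * s)) := by positivity
    rw [Real.norm_eq_abs, abs_mul, abs_of_nonneg h2, ← mul_assoc]
    exact mul_le_mul_of_nonneg_right h1 h2

theorem t_NDIM (hO : S_ONE) (hB : S_BND) (hI : S_INT) (hP : S_POL) (hQ : S_QUAD) : S_NDIM := by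
  intro N s τ x hN hs hs1 hx
  have hs0 : 0 < s := by linarith
  have hg := int_dd_tau hB hI (N := N) (s := s) (β := s + 1) (τ := τ) (x := x) hN hs0 hs1 (by linarith) hx
  rw [(hP N _ hN hg).2]
  have hin : ∀ ω : sphere (0 : E N) 1,
      ∫ r in Ioi (0 : ℝ), r ^ (N - 1) * (dd (bump τ (s + 1)) x (r • (ω : E N)) *
        ‖r • (ω : E N)‖ ^ (-((N : ℝ) + 2 * s))) =
      (s + 1) * kk s * (τ - ‖x‖ ^ 2) + (-(2 * s) * ((s + 1) * kk s)) * (inner ℝ x (ω : E N)) ^ 2 := by
    intro ω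
    have hω : ‖(ω : E N)‖ = 1 := by simpa using ω.2
    set p : ℝ := inner ℝ x (ω : E N) with hp
    set τ' : ℝ := τ - ‖x‖ ^ 2 + p ^ 2 with hτ'
    have hlt : p ^ 2 < τ' := by rw [hτ']; linarith
    have h1 := (hO s τ' p hs hs1 hlt).2
    have hcong : ∀ r ∈ Ioi (0 : ℝ), r ^ (N - 1) * (dd (bump τ (s + 1)) x (r • (ω : E N)) *
        ‖r • (ω : E N)‖ ^ (-((N : ℝ) + 2 * s))) = dd (v τ' (s + 1)) p r * r ^ (-1 - 2 * s) := by
      intro r hr
      have hr0 : 0 < r := hr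
      have e1 : ‖r • (ω : E N)‖ = r := by rw [norm_smul, hω, mul_one, Real.norm_eq_abs, abs_of_pos hr0]
      have e2 : ‖x + r • (ω : E N)‖ ^ 2 = ‖x‖ ^ 2 + 2 * (r * p) + r ^ 2 := by
        rw [norm_add_sq_real, inner_smul_right, e1]
      have e3 : ‖x - r • (ω : E N)‖ ^ 2 = ‖x‖ ^ 2 - 2 * (r * p) + r ^ 2 := by
        rw [norm_sub_sq_real, inner_smul_right, e1]
      have e4 : dd (bump τ (s + 1)) x (r • (ω : E N)) = dd (v τ' (s + 1)) p r := by
        unfold dd bump v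
        rw [e2, e3]
        have a1 : τ - ‖x‖ ^ 2 = τ' - p ^ 2 := by rw [hτ']; ring
        have a2 : τ - (‖x‖ ^ 2 + 2 * (r * p) + r ^ 2) = τ' - (p + r) ^ 2 := by rw [hτ']; ring
        have a3 : τ - (‖x‖ ^ 2 - 2 * (r * p) + r ^ 2) = τ' - (p - r) ^ 2 := by rw [hτ']; ring
        rw [a1, a2, a3]
      rw [e4, e1, ← pow_rpow hN s hr0]
      ring
    rw [setIntegral_congr_fun measurableSet_Ioi hcong, h1, hτ']
    ring
  simp_rw [hin]
  have hfin : IsFiniteMeasure (volume : Measure (E N)).toSphere := inferInstance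
  have hi2 : Integrable (fun ω : sphere (0 : E N) 1 => (inner ℝ x (ω : E N)) ^ 2)
      (volume : Measure (E N)).toSphere := by
    refine Integrable.of_bound (C := ‖x‖ ^ 2) ?_ (Eventually.of_forall fun ω => ?_)
    · exact (Continuous.aestronglyMeasurable (by fun_prop))
    · have hω : ‖(ω : E N)‖ = 1 := by simpa using ω.2
      have := abs_real_inner_le_norm x (ω : E N)
      rw [hω, mul_one] at this
      rw [Real.norm_eq_abs, abs_pow]
      exact pow_le_pow_left₀ (abs_nonneg _) this 2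
  rw [integral_add (integrable_const _) (hi2.const_mul _), integral_const, integral_const_mul,
    (hQ N hN).2 x, smul_eq_mul]
  ring

end Pool.Agent.Q64.FR
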