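import Pool.Agent.Q64.FR.Stm

set_option autoImplicit false

open MeasureTheory Set Filter Topology Metric
open scoped Real ENNReal

namespace Pool.Agent.Q64.FR

theorem inner_pow (n : ℕ) (f : ℝ → ℝ) :
    ∫ r : Ioi (0 : ℝ), f r ∂(Measure.volumeIoiPow n) = ∫ r in Ioi (0 : ℝ), r ^ n * f r := by
  simp only [Measure.volumeIoiPow, ENNReal.ofReal]
  rw [integral_withDensity_eq_integral_smul,
    integral_subtype_comap measurableSet_Ioi fun a ↦ Real.toNNReal (a ^ n) • f a,
    setIntegral_congr_fun measurableSet_Ioi fun x hx ↦ ?_]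
  · rw [NNReal.smul_def, Real.coe_toNNReal _ (pow_nonneg hx.out.le _)]
    rfl
  · exact (measurable_subtype_coe.pow_const _).real_toNNReal

theorem t_POL : S_POL := by
  intro N g hN hg
  have : Nonempty (Fin N) := ⟨⟨0, hN⟩⟩
  have : Nontrivial (E N) := inferInstance
  have hdim : Module.finrank ℝ (E N) = N := by simp
  have key := (volume : Measure (E N)).measurePreserving_homeomorphUnitSphereProd
  rw [hdim] at key
  let G : sphere (0 : E N) 1 × Ioi (0 : ℝ) → ℝ := fun q => g ((q.2 : ℝ) • (q.1 : E N))
  have hcomp : ∀ x : ({0}ᶜ : Set (E N)), G (homeomorphUnitSphereProd (E N) x) = g x := by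
    intro x
    have hx : ‖(x : E N)‖ ≠ 0 := by
      have h2 : (x : E N) ≠ 0 := x.2
      exact norm_ne_zero_iff.mpr h2
    simp only [G, homeomorphUnitSphereProd_apply_snd_coe, homeomorphUnitSphereProd_apply_fst_coe]
    rw [smul_smul, mul_inv_cancel₀ hx, one_smul]
  have hint : Integrable G ((volume : Measure (E N)).toSphere.prod (Measure.volumeIoiPow (N - 1))) := by
    rw [← key.integrable_comp_emb (Homeomorph.measurableEmbedding _)]
    have h1 : Integrable (fun x : ({0}ᶜ : Set (E N)) => g x) (Measure.comap (↑) (volume : Measure (E N))) := by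
      have := (integrableOn_iff_comap_subtypeVal (μ := (volume : Measure (E N))) (f := g)
        (measurableSet_singleton (0 : E N)).compl).1 hg.integrableOn
      exact this
    refine h1.congr (Eventually.of_forall fun x => ?_)
    exact (hcomp x).symm
  have hin : ∀ ω : sphere (0 : E N) 1, ∫ r : Ioi (0 : ℝ), G (ω, r) ∂(Measure.volumeIoiPow (N - 1)) =
      ∫ r in Ioi (0 : ℝ), r ^ (N - 1) * g (r • (ω : E N)) := fun ω =>
    inner_pow (N - 1) (fun r => g (r • (ω : E N)))
  constructor
  · refine hint.integral_prod_left.congr (Eventually.of_forall fun ω => ?_)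
    exact hin ω
  · calc ∫ h, g h = ∫ x : ({0}ᶜ : Set (E N)), g x ∂(Measure.comap (↑) (volume : Measure (E N))) := by
          rw [integral_subtype_comap (measurableSet_singleton _).compl fun x ↦ g x,
            restrict_compl_singleton]
      _ = ∫ x : ({0}ᶜ : Set (E N)), G (homeomorphUnitSphereProd (E N) x)
            ∂(Measure.comap (↑) (volume : Measure (E N))) := by
          simp_rw [hcomp]
      _ = ∫ q, G q ∂((volume : Measure (E N)).toSphere.prod (Measure.volumeIoiPow (N - 1))) :=
          key.integral_comp (Homeomorph.measurableEmbedding _) G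
      _ = ∫ ω, ∫ r : Ioi (0 : ℝ), G (ω, r) ∂(Measure.volumeIoiPow (N - 1))
            ∂(volume : Measure (E N)).toSphere := integral_prod _ hint
      _ = _ := by simp_rw [hin]

end Pool.Agent.Q64.FR
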