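import Pool.Agent.Q64.FR.Stm

set_option autoImplicit false

open MeasureTheory Set Filter Topology Metric
open scoped Real ENNReal

namespace Pool.Agent.Q64.FR

theorem t_PV (hI : S_INT) : S_PV := by
  intro N s u x C hN hs hs1 hum huC hdd
  set a : ℝ := (N : ℝ) + 2 * s with ha
  have hi := hI N s hN hs hs1
  have hC0 : 0 ≤ C := (abs_nonneg _).trans (huC x)
  -- the function after translation
  let F : ℝ → E N → ℝ := fun ε h => indicator {h : E N | ε < ‖h‖} (fun h => (u x - u (x + h)) * ‖h‖ ^ (-a)) h
  have hset : ∀ ε : ℝ, MeasurableSet {h : E N | ε < ‖h‖} := fun ε =>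
    measurableSet_lt measurable_const measurable_norm
  have hnm : Measurable (fun h : E N => ‖h‖ ^ (-a)) := measurable_norm.pow_const _
  have hFm : ∀ ε, Measurable (F ε) := fun ε => by
    refine Measurable.indicator ?_ (hset ε)
    exact ((measurable_const.sub (hum.comp (measurable_const_add x))).mul hnm)
  have hFi : ∀ ε : ℝ, 0 < ε → Integrable (F ε) volume := by
    intro ε hε
    have hmε : 0 < min (ε ^ 2) 1 := lt_min (by positivity) one_pos
    refine Integrable.mono' (hi.const_mul (2 * C / min (ε ^ 2) 1)) (hFm ε).aestronglyMeasurable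
      (Eventually.of_forall fun h => ?_)
    by_cases hh : ε < ‖h‖
    · have e1 : F ε h = (u x - u (x + h)) * ‖h‖ ^ (-a) := indicator_of_mem (s := {h : E N | ε < ‖h‖}) hh _
      have h2 : 0 ≤ ‖h‖ ^ (-a) := by positivity
      have h3 : |u x - u (x + h)| ≤ 2 * C := by
        have := abs_sub (u x) (u (x + h))
        have h4 := huC x
        have h5 := huC (x + h)
        linarith
      have h4 : min (ε ^ 2) 1 ≤ min (‖h‖ ^ 2) 1 := by
        refine min_le_min ?_ le_rfl
        exact pow_le_pow_left₀ hε.le hh.le 2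
      rw [e1, Real.norm_eq_abs, abs_mul, abs_of_nonneg h2, ← mul_assoc]
      refine mul_le_mul_of_nonneg_right ?_ h2
      calc |u x - u (x + h)| ≤ 2 * C := h3
        _ = 2 * C / min (ε ^ 2) 1 * min (ε ^ 2) 1 := by field_simp
        _ ≤ 2 * C / min (ε ^ 2) 1 * min (‖h‖ ^ 2) 1 := by gcongr
    · have e1 : F ε h = 0 := indicator_of_notMem (s := {h : E N | ε < ‖h‖}) hh _
      rw [e1, norm_zero]
      positivity
  have hT : ∀ ε : ℝ, 0 < ε →
      ∫ y in {y : E N | ε < ‖x - y‖}, (u x - u y) / ‖x - y‖ ^ a = ∫ h, F ε h := by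
    intro ε hε
    have hset2 : MeasurableSet {y : E N | ε < ‖x - y‖} :=
      measurableSet_lt measurable_const (measurable_const.sub measurable_id).norm
    rw [← integral_indicator hset2,
      ← integral_add_left_eq_self (μ := (volume : Measure (E N))) _ x]
    refine integral_congr_ae (Eventually.of_forall fun h => ?_)
    simp only [F]
    by_cases hh : ε < ‖h‖
    · rw [indicator_of_mem (s := {h : E N | ε < ‖h‖}) hh, indicator_of_mem]
      · have : ‖x - (x + h)‖ = ‖h‖ := by rw [sub_add_cancel_left, norm_neg]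
        rw [this, Real.rpow_neg (norm_nonneg _), div_eq_mul_inv]
      · show ε < ‖x - (x + h)‖
        rwa [sub_add_cancel_left, norm_neg]
    · rw [indicator_of_notMem (s := {h : E N | ε < ‖h‖}) hh, indicator_of_notMem]
      show ¬ ε < ‖x - (x + h)‖
      rwa [sub_add_cancel_left, norm_neg]
  have hsym : ∀ ε : ℝ, 0 < ε → ∫ h, F ε h =
      1 / 2 * ∫ h, indicator {h : E N | ε < ‖h‖} (fun h => dd u x h * ‖h‖ ^ (-a)) h := by
    intro ε hε
    have h1 : ∫ h, F ε (-h) = ∫ h, F ε h := integral_neg_eq_self _ _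
    have h2 : ∫ h, (F ε h + F ε (-h)) = (∫ h, F ε h) + ∫ h, F ε (-h) :=
      integral_add (hFi ε hε) ((hFi ε hε).comp_neg)
    have h3 : ∀ h, F ε h + F ε (-h) =
        indicator {h : E N | ε < ‖h‖} (fun h => dd u x h * ‖h‖ ^ (-a)) h := by
      intro h
      simp only [F]
      by_cases hh : ε < ‖h‖
      · have hh' : ε < ‖-h‖ := by rwa [norm_neg]
        rw [indicator_of_mem (s := {h : E N | ε < ‖h‖}) hh, indicator_of_mem (s := {h : E N | ε < ‖h‖}) hh',
          indicator_of_mem (s := {h : E N | ε < ‖h‖}) hh, norm_neg]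
        unfold dd
        rw [← sub_eq_add_neg x h]
        ring
      · have hh' : ¬ ε < ‖-h‖ := by rwa [norm_neg]
        rw [indicator_of_notMem (s := {h : E N | ε < ‖h‖}) hh,
          indicator_of_notMem (s := {h : E N | ε < ‖h‖}) hh',
          indicator_of_notMem (s := {h : E N | ε < ‖h‖}) hh, add_zero]
    simp_rw [h3] at h2
    rw [h2, h1]
    ring
  have hlim : Tendsto (fun ε : ℝ => ∫ h, indicator {h : E N | ε < ‖h‖} (fun h => dd u x h * ‖h‖ ^ (-a)) h)
      (𝓝[>] 0) (𝓝 (∫ h, dd u x h * ‖h‖ ^ (-a))) := by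
    have hdm : Measurable (fun h : E N => dd u x h * ‖h‖ ^ (-a)) := by
      refine Measurable.mul ?_ hnm
      unfold dd
      exact ((measurable_const.sub (hum.comp (measurable_const_add x))).sub
        (hum.comp (measurable_const.sub measurable_id)))
    refine tendsto_integral_filter_of_dominated_convergence
      (fun h => C * (min (‖h‖ ^ 2) 1 * ‖h‖ ^ (-a))) ?_ ?_ (hi.const_mul C) ?_
    · exact Eventually.of_forall fun ε => (hdm.indicator (hset ε)).aestronglyMeasurable
    · refine Eventually.of_forall fun ε => Eventually.of_forall fun h => ?_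
      refine (norm_indicator_le_norm_self _ _).trans ?_
      have h2 : 0 ≤ ‖h‖ ^ (-a) := by positivity
      rw [Real.norm_eq_abs, abs_mul, abs_of_nonneg h2, ← mul_assoc]
      exact mul_le_mul_of_nonneg_right (hdd h) h2
    · refine Eventually.of_forall fun h => ?_
      by_cases hh : h = 0
      · have : dd u x h = 0 := by
          rw [hh]; unfold dd; simp; ring
        have h0 : ∀ ε : ℝ, indicator {h : E N | ε < ‖h‖} (fun h => dd u x h * ‖h‖ ^ (-a)) h = 0 := by
          intro ε
          by_cases h1 : h ∈ {h : E N | ε < ‖h‖}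
          · rw [indicator_of_mem h1, this, zero_mul]
          · rw [indicator_of_notMem h1]
        simp_rw [h0]
        rw [this, zero_mul]
        exact tendsto_const_nhds
      · have hpos : 0 < ‖h‖ := norm_pos_iff.mpr hh
        refine tendsto_const_nhds.congr' ?_
        have : ∀ᶠ ε : ℝ in 𝓝[>] 0, ε < ‖h‖ := by
          have := Iio_mem_nhds hpos
          exact mem_nhdsWithin_of_mem_nhds this
        filter_upwards [this] with ε hε
        rw [indicator_of_mem (s := {h : E N | ε < ‖h‖}) hε]
  have hfin := hlim.const_mul (1 / 2)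
  refine hfin.congr' ?_
  filter_upwards [self_mem_nhdsWithin] with ε hε
  rw [hT ε hε, hsym ε hε]

end Pool.Agent.Q64.FR
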