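import Pool.Agent.Q64.FR.Stm

/-!
# The fractional Dirichlet problem with nonlocal gradient square (MP_49e099_an): definitions
-/

set_option autoImplicit false

open MeasureTheory Set Filter Topology
open scoped Real ENNReal

namespace Pool.Agent.Q64.FR

/-- the usual constant `a_{N,s} = 2^{2s} s Γ(N/2+s) / (π^{N/2} Γ(1-s))` of the fractional Laplacian -/
noncomputable def aNs (N : ℕ) (s : ℝ) : ℝ :=
  2 ^ (2 * s) * s * Real.Gamma ((N : ℝ) / 2 + s) / (π ^ ((N : ℝ) / 2) * Real.Gamma (1 - s))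

/-- `(-Δ)^s u (x) = L`, as a principal value at the point `x`. -/
def HasFracLap {N : ℕ} (s : ℝ) (u : E N → ℝ) (x : E N) (L : ℝ) : Prop :=
  Tendsto (fun ε : ℝ => aNs N s * ∫ y in {y : E N | ε < ‖x - y‖}, (u x - u y) / ‖x - y‖ ^ ((N : ℝ) + 2 * s))
    (𝓝[>] 0) (𝓝 L)

/-- the nonlocal gradient square `𝔻_s²(u)(x)` (the integrand is nonnegative, so its principal value is the
Lebesgue integral, possibly infinite) -/
noncomputable def D2 {N : ℕ} (s : ℝ) (u : E N → ℝ) (x : E N) : ℝ≥0∞ :=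
  ENNReal.ofReal (aNs N s / 2) *
    ∫⁻ y : E N, ENNReal.ofReal (|u x - u y| ^ 2 / ‖x - y‖ ^ ((N : ℝ) + 2 * s))

/-- `ξ ∈ 𝕏_s` with fractional Laplacian `g` on `Ω`: `ξ` is continuous on `ℝ^N`, supported in `closure Ω`, and
`(-Δ)^s ξ (x) = g x` exists at every `x ∈ Ω` and is bounded on `Ω`. -/
structure IsTest {N : ℕ} (s : ℝ) (Ω : Set (E N)) (ξ g : E N → ℝ) : Prop where
  cont : Continuous ξ
  supp : ∀ x, x ∉ closure Ω → ξ x = 0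
  lap : ∀ x ∈ Ω, HasFracLap s ξ x (g x)
  bdd : ∃ C : ℝ, ∀ x ∈ Ω, |g x| ≤ C

/-- `u` is a weak solution of `(-Δ)^s u - c u - μ 𝔻_s²(u) = λ f` on `Ω`, `u = 0` off `Ω`. -/
structure IsWeakSol {N : ℕ} (s : ℝ) (Ω : Set (E N)) (c μ f : E N → ℝ) (lam : ℝ) (u : E N → ℝ) : Prop where
  zero_off : ∀ x, x ∉ Ω → u x = 0
  int_u : IntegrableOn u Ω
  D2_meas : AEMeasurable (D2 s u) (volume.restrict Ω)
  D2_fin : ∫⁻ x in Ω, D2 s u x < ∞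
  weak : ∀ ξ g : E N → ℝ, IsTest s Ω ξ g →
    ∫ x in Ω, u x * g x = ∫ x in Ω, (c x * u x + μ x * (D2 s u x).toReal + lam * f x) * ξ x

/-- `u ∈ W_0^{s,2}(Ω)` -/
def InW0 {N : ℕ} (s : ℝ) (Ω : Set (E N)) (u : E N → ℝ) : Prop :=
  MemLp u 2 volume ∧
  ∫⁻ x : E N, ∫⁻ y : E N, ENNReal.ofReal (|u x - u y| ^ 2 / ‖x - y‖ ^ ((N : ℝ) + 2 * s)) < ∞ ∧
  ∀ x, x ∉ Ω → u x = 0

/-- the boundary of the open set `Ω` is of class `C²`: near every boundary point `Ω` is a strict sublevel set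
of a `C²` function without critical point -/
def C2Boundary {N : ℕ} (Ω : Set (E N)) : Prop :=
  ∀ p ∈ frontier Ω, ∃ (U : Set (E N)) (ρ : E N → ℝ), IsOpen U ∧ p ∈ U ∧ ContDiff ℝ 2 ρ ∧
    (∀ x ∈ U, fderiv ℝ ρ x ≠ 0) ∧ Ω ∩ U = {x | ρ x < 0} ∩ U ∧ frontier Ω ∩ U = {x | ρ x = 0} ∩ U

/-- The statement of Q1 of MP_49e099_an in dimension `N` with exponent `s`. -/
def Q1 (N : ℕ) (s : ℝ) : Prop :=
  ∀ Ω : Set (E N), IsOpen Ω → Bornology.IsBounded Ω → IsConnected Ω → C2Boundary Ω →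
  ∀ (f μ c : E N → ℝ) (m μ₁ : ℝ), (N : ℝ) / (2 * s) < m →
    MemLp f (ENNReal.ofReal m) (volume.restrict Ω) →
    MemLp μ ∞ (volume.restrict Ω) → MemLp c ∞ (volume.restrict Ω) →
    (∀ᵐ x ∂(volume.restrict Ω), 0 ≤ c x) → ¬ (c =ᵐ[volume.restrict Ω] 0) →
    0 < μ₁ → (∀ᵐ x ∂(volume.restrict Ω), μ₁ ≤ μ x) →
    ∃ lam₀ : ℝ, 0 < lam₀ ∧ ∀ lam : ℝ, 0 < lam → lam < lam₀ →
      ∃ u₁ u₂ : E N → ℝ, InW0 s Ω u₁ ∧ InW0 s Ω u₂ ∧ IsWeakSol s Ω c μ f lam u₁ ∧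
        IsWeakSol s Ω c μ f lam u₂ ∧ ¬ (u₁ =ᵐ[volume] u₂)

/-- the potential `c(x) = κ (1-‖x‖²)^{1-s} / (2s(s+1)/N + 1 - ‖x‖²)` in the unit ball, `0` outside -/
noncomputable def cRes (N : ℕ) (s κ : ℝ) (x : E N) : ℝ :=
  κ * (max (1 - ‖x‖ ^ 2) 0) ^ (1 - s) / (2 * s * (s + 1) / N + max (1 - ‖x‖ ^ 2) 0)

/-- the resonant function `φ(x) = (1-‖x‖²)_+^s (2s(s+1)/N + 1 - ‖x‖²)` -/
noncomputable def phi (N : ℕ) (s : ℝ) (x : E N) : ℝ :=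
  2 * s * (s + 1) / N * bump 1 s x + bump 1 (s + 1) x

end Pool.Agent.Q64.FR
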