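import Pool.Agent.Q64.FR.Stm

set_option autoImplicit false

open MeasureTheory Set Filter Topology Metric
open scoped Real ENNReal

namespace Pool.Agent.Q64.FR

/-- the integrand on the ball -/
noncomputable def qq {N : ℕ} (x h : E N) : ℝ := indicator (ball (0 : E N) 1) (fun h => (inner ℝ x h) ^ 2) h

theorem qq_meas {N : ℕ} (x : E N) : Measurable (qq x) := by
  unfold qq
  exact Measurable.indicator (by fun_prop) isOpen_ball.measurableSet

theorem qq_int {N : ℕ} (x : E N) : Integrable (qq x) volume := by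
  unfold qq
  rw [integrable_indicator_iff isOpen_ball.measurableSet]
  have hfin : IsFiniteMeasure (volume.restrict (ball (0 : E N) 1)) := ⟨by
    rw [Measure.restrict_apply_univ]; exact measure_ball_lt_top⟩
  refine Integrable.of_bound (C := ‖x‖ ^ 2) (Continuous.aestronglyMeasurable (by fun_prop)) ?_
  filter_upwards [ae_restrict_mem isOpen_ball.measurableSet] with h hh
  have h1 : ‖h‖ < 1 := by simpa using hh
  have h2 := abs_real_inner_le_norm x h
  rw [Real.norm_eq_abs, abs_pow]
  refine pow_le_pow_left₀ (abs_nonneg _) (h2.trans ?_) 2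
  exact mul_le_of_le_one_right (norm_nonneg _) h1.le

theorem qq_norm {N : ℕ} (x y : E N) (hxy : ‖x‖ = ‖y‖) : ∫ h, qq x h = ∫ h, qq y h := by
  let U : E N ≃ₗᵢ[ℝ] E N := (ℝ ∙ (x - y))ᗮ.reflection
  have hU : U x = y := Submodule.reflection_sub hxy
  have h1 : ∀ h, qq x h = qq y (U h) := by
    intro h
    unfold qq
    by_cases hh : h ∈ ball (0 : E N) 1
    · have hh' : U h ∈ ball (0 : E N) 1 := by
        rw [mem_ball_zero_iff, U.norm_map]; simpa using hh
      rw [indicator_of_mem hh, indicator_of_mem hh', ← hU, U.inner_map_map]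
    · have hh' : U h ∉ ball (0 : E N) 1 := by
        rw [mem_ball_zero_iff, U.norm_map]; simpa using hh
      rw [indicator_of_notMem hh, indicator_of_notMem hh']
  simp_rw [h1]
  exact (U.measurePreserving).integral_comp U.toHomeomorph.measurableEmbedding _

theorem qq_smul {N : ℕ} (t : ℝ) (x : E N) : ∫ h, qq (t • x) h = t ^ 2 * ∫ h, qq x h := by
  rw [← integral_const_mul]
  refine integral_congr_ae (Eventually.of_forall fun h => ?_)
  simp only [qq]
  by_cases hh : h ∈ ball (0 : E N) 1
  · rw [indicator_of_mem hh, indicator_of_mem hh, inner_smul_left]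
    simp only [conj_trivial]
    ring
  · rw [indicator_of_notMem hh, indicator_of_notMem hh, mul_zero]

theorem qq_sum {N : ℕ} (x : E N) : (N : ℝ) * ∫ h, qq x h =
    ‖x‖ ^ 2 * ∫ h : E N, indicator (ball (0 : E N) 1) (fun h => ‖h‖ ^ 2) h := by
  have h1 : ∀ i : Fin N, ∫ h, qq x h = ‖x‖ ^ 2 * ∫ h, qq (EuclideanSpace.single i (1 : ℝ)) h := by
    intro i
    rw [← qq_smul]
    refine qq_norm _ _ ?_
    rw [norm_smul, EuclideanSpace.norm_single, norm_one, mul_one, norm_norm]
  have h2 : ∑ i : Fin N, ∫ h, qq (EuclideanSpace.single i (1 : ℝ)) h =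
      ∫ h : E N, indicator (ball (0 : E N) 1) (fun h => ‖h‖ ^ 2) h := by
    rw [← integral_finsetSum _ fun i _ => qq_int _]
    refine integral_congr_ae (Eventually.of_forall fun h => ?_)
    simp only [qq]
    by_cases hh : h ∈ ball (0 : E N) 1
    · simp only [indicator_of_mem hh]
      rw [EuclideanSpace.norm_sq_eq]
      refine Finset.sum_congr rfl fun i _ => ?_
      rw [EuclideanSpace.inner_single_left]
      simp
    · simp only [indicator_of_notMem hh, Finset.sum_const_zero]
  rw [← h2, Finset.mul_sum, ← Finset.sum_congr rfl (fun i _ => h1 i)]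
  simp

theorem rad {N : ℕ} : ∫ r in Ioi (0 : ℝ), r ^ (N - 1) * indicator (Iio (1 : ℝ)) (fun r => r ^ 2) r =
    1 / ((N - 1 + 2 : ℕ) + 1 : ℝ) := by
  have h1 : ∀ r : ℝ, r ^ (N - 1) * indicator (Iio (1 : ℝ)) (fun r => r ^ 2) r =
      indicator (Iio (1 : ℝ)) (fun r => r ^ (N - 1 + 2)) r := by
    intro r
    by_cases hr : r ∈ Iio (1 : ℝ)
    · rw [indicator_of_mem hr, indicator_of_mem hr, pow_add]
    · rw [indicator_of_notMem hr, indicator_of_notMem hr, mul_zero]
  simp_rw [h1]
  rw [setIntegral_indicator measurableSet_Iio, Ioi_inter_Iio, ← integral_Ioc_eq_integral_Ioo,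
    ← intervalIntegral.integral_of_le zero_le_one, integral_pow]
  simp

theorem t_QUAD (hP : S_POL) : S_QUAD := by
  intro N hN
  have : Nonempty (Fin N) := ⟨⟨0, hN⟩⟩
  have hNt : Nontrivial (E N) := inferInstance
  have hdim : Module.finrank ℝ (E N) = N := by simp
  have hN0 : (0 : ℝ) < N := by exact_mod_cast hN
  constructor
  · rw [Measure.toSphere_real_apply_univ, hdim]
    have : 0 < (volume : Measure (E N)).real (ball 0 1) :=
      ENNReal.toReal_pos (measure_ball_pos _ _ one_pos).ne' measure_ball_lt_top.ne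
    positivity
  · intro x
    set c : ℝ := 1 / ((N - 1 + 2 : ℕ) + 1 : ℝ) with hc
    have hc0 : 0 < c := by positivity
    have hiball : Integrable (fun h : E N => indicator (ball (0 : E N) 1) (fun h => ‖h‖ ^ 2) h) volume := by
      rw [integrable_indicator_iff isOpen_ball.measurableSet]
      have hfin : IsFiniteMeasure (volume.restrict (ball (0 : E N) 1)) := ⟨by
        rw [Measure.restrict_apply_univ]; exact measure_ball_lt_top⟩
      refine Integrable.of_bound (C := 1) (Continuous.aestronglyMeasurable (by fun_prop)) ?_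
      filter_upwards [ae_restrict_mem isOpen_ball.measurableSet] with h hh
      have h1 : ‖h‖ < 1 := by simpa using hh
      rw [Real.norm_eq_abs, abs_of_nonneg (by positivity)]
      nlinarith [norm_nonneg h]
    have hball : ∀ (ω : sphere (0 : E N) 1) (r : ℝ), 0 < r →
        (r • (ω : E N) ∈ ball (0 : E N) 1 ↔ r ∈ Iio (1 : ℝ)) := by
      intro ω r hr
      have hω : ‖(ω : E N)‖ = 1 := by simp
      rw [mem_ball_zero_iff, norm_smul, hω, mul_one, Real.norm_eq_abs, abs_of_pos hr, mem_Iio]
    have e1 := (hP N (qq x) hN (qq_int x)).2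
    have e2 := (hP N _ hN hiball).2
    have i1 : ∀ ω : sphere (0 : E N) 1, ∫ r in Ioi (0 : ℝ), r ^ (N - 1) * qq x (r • (ω : E N)) =
        c * (inner ℝ x (ω : E N)) ^ 2 := by
      intro ω
      rw [hc, ← rad, ← integral_mul_const]
      refine setIntegral_congr_fun measurableSet_Ioi fun r hr => ?_
      simp only [qq]
      by_cases hr1 : r ∈ Iio (1 : ℝ)
      · rw [indicator_of_mem ((hball ω r hr).2 hr1), indicator_of_mem hr1, inner_smul_right]
        ring
      · rw [indicator_of_notMem (fun h => hr1 ((hball ω r hr).1 h)), indicator_of_notMem hr1]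
        ring
    have i2 : ∀ ω : sphere (0 : E N) 1, ∫ r in Ioi (0 : ℝ), r ^ (N - 1) *
        indicator (ball (0 : E N) 1) (fun h => ‖h‖ ^ 2) (r • (ω : E N)) = c := by
      intro ω
      rw [hc, ← rad]
      refine setIntegral_congr_fun measurableSet_Ioi fun r hr => ?_
      have hω : ‖(ω : E N)‖ = 1 := by simp
      by_cases hr1 : r ∈ Iio (1 : ℝ)
      · rw [indicator_of_mem ((hball ω r hr).2 hr1), indicator_of_mem hr1, norm_smul, hω, mul_one,
          Real.norm_eq_abs, sq_abs]
      · rw [indicator_of_notMem (fun h => hr1 ((hball ω r hr).1 h)), indicator_of_notMem hr1]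
    simp_rw [i1] at e1
    simp_rw [i2] at e2
    rw [integral_const_mul] at e1
    rw [integral_const, smul_eq_mul] at e2
    have h3 := qq_sum x
    rw [e1, e2] at h3
    have h4 : c * ((N : ℝ) * ∫ ω : sphere (0 : E N) 1, (inner ℝ x (ω : E N)) ^ 2
        ∂(volume : Measure (E N)).toSphere) =
        c * (‖x‖ ^ 2 * (volume : Measure (E N)).toSphere.real univ) := by linarith
    have h5 := mul_left_cancel₀ hc0.ne' h4
    field_simp
    linarith

end Pool.Agent.Q64.FR
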