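import Mathlib

/-!
# Project FR (helper64): resonance in the fractional problem of MP_49e099_an

`E N = EuclideanSpace ℝ (Fin N)`, `1/2 < s < 1`. Target: with `t = ‖y‖²`,
`φ(y) = α (1 - t)_+^s + (1 - t)_+^{s+1}` satisfies `(-Δ)^s φ = const · (1 - t)` in the unit ball for a suitable
`α > 0`. So `c = (-Δ)^s φ / φ` is bounded, nonnegative and not zero, and the problem with this `c`
(`μ ≥ μ₁ > 0`, `f ≥ 0`, `f ≢ 0`) has no weak solution: test with `φ`.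
Each `S_...` below is one lemma job; the docstring is the proof. (All formulas were checked numerically.)
-/

set_option autoImplicit false

open MeasureTheory Set Filter Topology
open scoped Real

namespace Pool.Agent.Q64.FR

/-- `k_s = ∫_0^1 q^{-s} (1-q)^{s-1} dq = B(1-s, s)` -/
noncomputable def kk (s : ℝ) : ℝ := ∫ q in Ioo (0 : ℝ) 1, q ^ (-s) * (1 - q) ^ (s - 1)

/-- the space `ℝ^N` -/
abbrev E (N : ℕ) := EuclideanSpace ℝ (Fin N)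

/-- second difference `2 u(x) - u(x+h) - u(x-h)` -/
noncomputable def dd {V : Type*} [AddCommGroup V] (u : V → ℝ) (x h : V) : ℝ := 2 * u x - u (x + h) - u (x - h)

/-- `(τ - y²)_+^β` on the line -/
noncomputable def v (τ β y : ℝ) : ℝ := (max (τ - y ^ 2) 0) ^ β

/-- `(τ - ‖y‖²)_+^β` on `ℝ^N` -/
noncomputable def bump {N : ℕ} (τ β : ℝ) (y : E N) : ℝ := (max (τ - ‖y‖ ^ 2) 0) ^ β

/-- **MOB**: Möbius substitution. Proof. For fixed `x ∈ (-1,1)` the map `z ↦ y = (x+z)/(1+xz)` is an injective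
map of `(-1,1)` onto `(-1,1)` (inverse `(y-x)/(1-xy)`), derivative `(1-x²)/(1+xz)²`, and
`1-y² = (1-x²)(1-z²)/(1+xz)²`, `y-x = z(1-x²)/(1+xz)`. With `p = 1-x²`, `d = 1+xz > 0` the transformed integrand is
`p^{s-1}(1-z²)^{s-1} d^{2-2s} · |z|^{1-2s} p^{1-2s} d^{2s-1} · p d^{-2} = p^{1-s} (1-z²)^{s-1} |z|^{1-2s} / d`.
(`integral_image_eq_integral_abs_deriv_smul`, `integrableOn_image_iff_integrableOn_abs_deriv_smul`.) -/
def S_MOB : Prop := ∀ s x : ℝ, 0 < s → s < 1 → |x| < 1 →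
  IntegrableOn (fun z => (1 - z ^ 2) ^ (s - 1) * |z| ^ (1 - 2 * s) / (1 + x * z)) (Ioo (-1) 1) →
  IntegrableOn (fun y => (1 - y ^ 2) ^ (s - 1) * |x - y| ^ (1 - 2 * s)) (Ioo (-1) 1) ∧
  ∫ y in Ioo (-1 : ℝ) 1, (1 - y ^ 2) ^ (s - 1) * |x - y| ^ (1 - 2 * s) =
    (1 - x ^ 2) ^ (1 - s) * ∫ z in Ioo (-1 : ℝ) 1, (1 - z ^ 2) ^ (s - 1) * |z| ^ (1 - 2 * s) / (1 + x * z)

/-- **VAL**: the transformed integral. Proof. Let `g(z)` be the integrand. Adding `z` and `-z`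
(`1/(1+xz) + 1/(1-xz) = 2/(1-x²z²)`) the integral is `∫_0^1 2 (1-z²)^{s-1} z^{1-2s}/(1-x²z²) dz`. Substitute
`z = sqrt(q/(1-x²+x²q))` (bijection of `(0,1)`; or in two steps `v = z²`, `v = q/D`, `D = 1-x²+x²q`):
`1-v = (1-x²)(1-q)/D`, `1-x²v = (1-x²)/D`, `dv = (1-x²)/D² dq`, `2 z^{1-2s} dz = v^{-s} dv`, so it equals
`∫_0^1 (1-v)^{s-1} v^{-s}/(1-x²v) dv = (1-x²)^{s-1} ∫_0^1 (1-q)^{s-1} q^{-s} dq`. Integrability goes through the same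
substitutions backwards (for `g` on `(-1,0)` and `(0,1)` separately one may also dominate `1/(1+xz) ≤ 1/(1-|x|)`
and use `x = 0`); the Beta integral converges since `-s, s-1 > -1`. -/
def S_VAL : Prop := ∀ s x : ℝ, 0 < s → s < 1 → |x| < 1 →
  IntegrableOn (fun z => (1 - z ^ 2) ^ (s - 1) * |z| ^ (1 - 2 * s) / (1 + x * z)) (Ioo (-1) 1) ∧
  ∫ z in Ioo (-1 : ℝ) 1, (1 - z ^ 2) ^ (s - 1) * |z| ^ (1 - 2 * s) / (1 + x * z) =
    (1 - x ^ 2) ^ (s - 1) * kk s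

/-- **BET**: Beta facts. Proof. Convergence and positivity of the Beta integral are clear (`Complex.betaIntegral`
or directly). `d/dq [q^{1-s}(1-q)^s] = q^{-s}(1-q)^{s-1} ((1-s) - q)` on `(0,1)`, so
`∫_0^1 q^{1-s}(1-q)^{s-1} dq = (1-s) kk s`; and by symmetry and `q = y²`
`∫_{-1}^1 (1-y²)^{s-1} |y|^{3-2s} dy = 2∫_0^1 (1-y²)^{s-1} y^{3-2s} dy = ∫_0^1 q^{1-s}(1-q)^{s-1} dq`.
`(1-y²)^{s-1} ≤ (1-|y|)^{s-1}` is integrable. -/
def S_BET : Prop := ∀ s : ℝ, 0 < s → s < 1 →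
  IntegrableOn (fun q : ℝ => q ^ (-s) * (1 - q) ^ (s - 1)) (Ioo 0 1) ∧ 0 < kk s ∧
  IntegrableOn (fun y : ℝ => (1 - y ^ 2) ^ (s - 1)) (Ioo (-1) 1) ∧
  ∫ y in Ioo (-1 : ℝ) 1, (1 - y ^ 2) ^ (s - 1) * |y| ^ (3 - 2 * s) = (1 - s) * kk s

/-- The conclusion of MOB and VAL together (`1/2 < s < 1` is the case used). -/
def S_I : Prop := ∀ s x : ℝ, 0 < s → s < 1 → |x| < 1 →
  IntegrableOn (fun y => (1 - y ^ 2) ^ (s - 1) * |x - y| ^ (1 - 2 * s)) (Ioo (-1) 1) ∧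
  ∫ y in Ioo (-1 : ℝ) 1, (1 - y ^ 2) ^ (s - 1) * |x - y| ^ (1 - 2 * s) = kk s

/-- **LL** (premise `S_I`): first moment. Proof. `F(x,y) = (y-x)|x-y|^{1-2s}` (`= sgn(y-x)|y-x|^{2-2s}`) satisfies
`F(x,y) = F(0,y) - (2-2s) ∫_0^x |y-z|^{1-2s} dz` (interval integral; `2-2s ∈ (0,1)`: `z ↦ sgn(y-z)|y-z|^{2-2s}` is
continuous with derivative `-(2-2s)|y-z|^{1-2s}` off `z = y`, interval integrable). Multiply by `w(y) = (1-y²)^{s-1}`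
and integrate: `∫ w(y) F(0,y) dy = 0` (odd), and by Fubini (the absolute double integral is `∫ kk s dz < ∞` by `S_I`)
`∫∫ = ∫_0^x kk s dz = x kk s`. -/
def S_LL : Prop := ∀ s x : ℝ, 1 / 2 < s → s < 1 → |x| < 1 →
  ∫ y in Ioo (-1 : ℝ) 1, (1 - y ^ 2) ^ (s - 1) * ((y - x) * |x - y| ^ (1 - 2 * s)) =
    -(2 - 2 * s) * kk s * x

/-- **PP** (premises `S_BET`, `S_LL`): second moment. Proof. `F(x,y) = (y-x)²|x-y|^{1-2s} = |x-y|^{3-2s}`,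
`F(x,y) = F(0,y) - (3-2s) ∫_0^x (y-z)|y-z|^{1-2s} dz` (`3-2s > 1`, differentiable everywhere). Multiply by
`w(y) = (1-y²)^{s-1}` (integrable; all factors bounded by `2^{2}`), integrate, Fubini:
`∫ w F(0,·) = (1-s) kk s` (BET, `|0-y|`), `∫_0^x (∫ w(y)(y-z)|z-y|^{1-2s} dy) dz = -(2-2s) kk s x²/2` (LL). -/
def S_PP : Prop := ∀ s x : ℝ, 1 / 2 < s → s < 1 → |x| < 1 →
  ∫ y in Ioo (-1 : ℝ) 1, (1 - y ^ 2) ^ (s - 1) * ((y - x) ^ 2 * |x - y| ^ (1 - 2 * s)) =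
    (1 - s) * kk s + (3 - 2 * s) * (1 - s) * kk s * x ^ 2

/-- **TAY**: Taylor formula for the second difference of `v = (1-y²)_+^{s+1}`. Proof. `v` is `C¹` on the line with
`v'(y) = -2(s+1) y (1-y²)_+^s`; `v'` is continuous, and differentiable off `±1` with
`-v''(y) = 2(s+1) g(y)`, `g(y) = (1-y²)^{s-1}(1-(1+2s)y²)` on `(-1,1)`, `0` outside `[-1,1]`; `g` is integrable on
`(-1,1)`, so `v'` is the integral of `v''` (FTC with integrable derivative off a countable set). Then for `h > 0`: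
`2v(x)-v(x+h)-v(x-h) = -∫_0^h (v'(x+t) - v'(x-t)) dt = 2(s+1) ∫_0^h ∫_{|y-x|<t, |y|<1} g(y) dy dt
= 2(s+1) ∫_{|y|<1} g(y) max(h-|y-x|, 0) dy` (Fubini). Alternative: fix `x`, both sides are `C¹` in `h` with the same
derivative and value `0` at `h = 0`. -/
def S_TAY : Prop := ∀ s x h : ℝ, 0 < s → s < 1 → 0 < h →
  dd (v 1 (s + 1)) x h =
    2 * (s + 1) * ∫ y in Ioo (-1 : ℝ) 1, max (h - |y - x|) 0 * ((1 - y ^ 2) ^ (s - 1) * (1 - (1 + 2 * s) * y ^ 2))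

/-- **FUB**: the singular integral of such a function. Proof. Fubini on `(0,∞) × (-1,1)`; for `y ≠ x`, `r = |y-x|`:
`∫_0^∞ max(h-r,0) h^{-1-2s} dh = ∫_r^∞ (h^{-2s} - r h^{-1-2s}) dh = r^{1-2s}/(2s-1) - r^{1-2s}/(2s)
= r^{1-2s}/(2s(2s-1))` (nonnegative integrand, so this also gives the absolute double integral
`∫ |g(y)| r^{1-2s}/(2s(2s-1)) dy < ∞`). -/
def S_FUB : Prop := ∀ (s x : ℝ) (g : ℝ → ℝ), 1 / 2 < s → s < 1 → Measurable g →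
  IntegrableOn (fun y => g y * |x - y| ^ (1 - 2 * s)) (Ioo (-1) 1) →
  IntegrableOn (fun h : ℝ => h ^ (-1 - 2 * s) * ∫ y in Ioo (-1 : ℝ) 1, max (h - |y - x|) 0 * g y) (Ioi 0) ∧
  ∫ h in Ioi (0 : ℝ), h ^ (-1 - 2 * s) * ∫ y in Ioo (-1 : ℝ) 1, max (h - |y - x|) 0 * g y =
    (2 * s * (2 * s - 1))⁻¹ * ∫ y in Ioo (-1 : ℝ) 1, g y * |x - y| ^ (1 - 2 * s)

/-- The case `τ = 1` of ONE (follows from I, LL, PP, TAY, FUB). -/
def S_ONE1 : Prop := ∀ s x : ℝ, 1 / 2 < s → s < 1 → |x| < 1 →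
  IntegrableOn (fun h : ℝ => dd (v 1 (s + 1)) x h * h ^ (-1 - 2 * s)) (Ioi 0) ∧
  ∫ h in Ioi (0 : ℝ), dd (v 1 (s + 1)) x h * h ^ (-1 - 2 * s) = (s + 1) * kk s * (1 - (1 + 2 * s) * x ^ 2)

/-- **ONE** (premise `S_ONE1`): scaling. Proof. `ρ = sqrt τ`, `v τ β y = ρ^{2β} v 1 β (y/ρ)`, so
`dd (v τ (s+1)) p h = ρ^{2s+2} dd (v 1 (s+1)) (p/ρ) (h/ρ)`; substitute `h = ρ h'`
(`integral_comp_mul_left_Ioi` and its integrability version): the integral is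
`ρ^{2s+2} ρ^{-2s} (s+1) kk s (1-(1+2s)p²/ρ²)`. -/
def S_ONE : Prop := ∀ s τ p : ℝ, 1 / 2 < s → s < 1 → p ^ 2 < τ →
  IntegrableOn (fun h : ℝ => dd (v τ (s + 1)) p h * h ^ (-1 - 2 * s)) (Ioi 0) ∧
  ∫ h in Ioi (0 : ℝ), dd (v τ (s + 1)) p h * h ^ (-1 - 2 * s) = (s + 1) * kk s * (τ - (1 + 2 * s) * p ^ 2)

/-- **BND**: second differences inside are quadratically small, uniformly in `τ`. Proof. Let `c = a - ‖x‖² > 0`,
`F(r) = r^β` on `[c/2, b + c]` is `C²`, `|F'| ≤ M₁`, `|F''| ≤ M₂` there. Choose `δ > 0` with `2‖x‖δ + δ² ≤ c/2`.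
For `‖h‖ ≤ δ`: `r₀ = τ-‖x‖²`, `r± = τ-‖x±h‖² = r₀ ∓ 2⟪x,h⟫ - ‖h‖²` lie in `[c/2, b]`, `2r₀-r₊-r₋ = 2‖h‖²`, and by
Taylor `|F(r±)-F(r₀)-F'(r₀)(r±-r₀)| ≤ M₂ (r±-r₀)²/2`, so `|dd| ≤ 2 M₁ ‖h‖² + M₂ (2‖x‖‖h‖+‖h‖²)²`. For `‖h‖ > δ`:
`|dd| ≤ 4 b^β` and `min (‖h‖²) 1 ≥ min (δ²) 1`. -/
def S_BND : Prop := ∀ (N : ℕ) (β : ℝ) (x : E N) (a b : ℝ), 0 < β → ‖x‖ ^ 2 < a → a ≤ b →
  ∃ C : ℝ, 0 ≤ C ∧ ∀ τ ∈ Icc a b, ∀ h : E N, |dd (bump τ β) x h| ≤ C * min (‖h‖ ^ 2) 1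

/-- **INT**: Proof. Near `0` the function is `‖h‖^{2-2s-N}`, far away `‖h‖^{-N-2s}`; use polar coordinates for radial
functions (`integrable_fun_norm_addHaar` / `integral_fun_norm_addHaar`): `∫_0^1 r^{1-2s} dr + ∫_1^∞ r^{-1-2s} dr`. -/
def S_INT : Prop := ∀ (N : ℕ) (s : ℝ), 1 ≤ N → 0 < s → s < 1 →
  Integrable (fun h : E N => min (‖h‖ ^ 2) 1 * ‖h‖ ^ (-((N : ℝ) + 2 * s))) volume

/-- **POL**: polar coordinates for a general integrable function. Proof.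
`Measure.measurePreserving_homeomorphUnitSphereProd` (with `dim E = N`), `volumeIoiPow`, Fubini. -/
def S_POL : Prop := ∀ (N : ℕ) (g : E N → ℝ), 1 ≤ N → Integrable g volume →
  Integrable (fun ω : Metric.sphere (0 : E N) 1 => ∫ r in Ioi (0 : ℝ), r ^ (N - 1) * g (r • (ω : E N)))
    (volume : Measure (E N)).toSphere ∧
  ∫ h, g h = ∫ ω : Metric.sphere (0 : E N) 1, (∫ r in Ioi (0 : ℝ), r ^ (N - 1) * g (r • (ω : E N)))
    ∂(volume : Measure (E N)).toSphere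

/-- **QUAD**: second moments of the surface measure. Proof. By POL applied to
`h ↦ ⟪x,h⟫² 1_{‖h‖<1}` and to `‖h‖² 1_{‖h‖<1}` (the factor `∫_0^1 r^{N+1} dr = 1/(N+2)` is the same) it is enough
that `N ∫_B ⟪x,h⟫² dh = ‖x‖² ∫_B ‖h‖² dh`. `Q(x) = ∫_B ⟪x,h⟫²` satisfies `Q(Ux) = Q(x)` for every linear isometry
(`LinearIsometryEquiv.measurePreserving`), `Q(tx) = t²Q(x)`, so `Q(x) = ‖x‖² Q(e_0)` (`reflection_sub` moves `x` to
`‖x‖ e_0`), and `∑_i Q(e_i) = ∫_B ‖h‖²`. The total mass is positive (`N ≥ 1`: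
`Measure.toSphere_apply_univ`: `dim * volume (ball 0 1)`). -/
def S_QUAD : Prop := ∀ (N : ℕ), 1 ≤ N →
  0 < (volume : Measure (E N)).toSphere.real univ ∧
  ∀ x : E N, ∫ ω : Metric.sphere (0 : E N) 1, (inner ℝ x (ω : E N)) ^ 2 ∂(volume : Measure (E N)).toSphere =
    (volume : Measure (E N)).toSphere.real univ / N * ‖x‖ ^ 2

/-- **NDIM** (premises ONE, BND, INT, POL, QUAD): the value in `ℝ^N` for the exponent `s+1`.
Proof. The function is integrable (BND with `a = b = τ`, INT, measurability: continuous times measurable). POL: for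
`‖ω‖ = 1`, `p = ⟪x,ω⟫`, `ρ² = τ-‖x‖²+p²`: `bump τ β (x ± rω) = v ρ² β (p ± r)`, also at `r = 0`, and
`r^{N-1} r^{-(N+2s)} = r^{-1-2s}`; so the inner integral is `(s+1) kk s (ρ² - (1+2s)p²) = (s+1) kk s (τ-‖x‖²-2s p²)` by
ONE (`p² < ρ²`). Integrate over the sphere with QUAD. -/
def S_NDIM : Prop := ∀ (N : ℕ) (s τ : ℝ) (x : E N), 1 ≤ N → 1 / 2 < s → s < 1 → ‖x‖ ^ 2 < τ →
  ∫ h : E N, dd (bump τ (s + 1)) x h * ‖h‖ ^ (-((N : ℝ) + 2 * s)) =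
    (s + 1) * kk s * (volume : Measure (E N)).toSphere.real univ * (τ - ‖x‖ ^ 2 - 2 * s / N * ‖x‖ ^ 2)

/-- **DER** (premises BND, INT, NDIM): the value for the exponent `s`. Proof. Differentiate NDIM in `τ` at `τ = 1`:
`d/dτ bump τ (s+1) y = (s+1) bump τ s y` for every `y` (`s > 0`; `r ↦ (max r 0)^{s+1}` is `C¹`), so
`d/dτ dd (bump τ (s+1)) x h = (s+1) dd (bump τ s) x h`, and by BND (`β = s`, `[a,b] ∋ 1` in the interior,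
`a > ‖x‖²`) and INT the derivative is dominated (`hasDerivAt_integral_of_dominated_loc_of_deriv_le`). The right side of
NDIM has the derivative `(s+1) kk s σ`. -/
def S_DER : Prop := ∀ (N : ℕ) (s : ℝ) (x : E N), 1 ≤ N → 1 / 2 < s → s < 1 → ‖x‖ < 1 →
  ∫ h : E N, dd (bump 1 s) x h * ‖h‖ ^ (-((N : ℝ) + 2 * s)) =
    kk s * (volume : Measure (E N)).toSphere.real univ

/-- **PV** (premise INT): the principal value. Proof. Substitute `y = x + h`; the truncated integrand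
`(u(x)-u(x+h))‖h‖^{-(N+2s)} 1_{‖h‖>ε}` is integrable (`u` bounded); average with `h ↦ -h`: the truncated integral is
`1/2 ∫_{‖h‖>ε} dd u x h ‖h‖^{-(N+2s)} dh`. Dominated convergence (`C min(‖h‖²,1)‖h‖^{-(N+2s)}`), `ε → 0+`, the set
`{0}` being null. -/
def S_PV : Prop := ∀ (N : ℕ) (s : ℝ) (u : E N → ℝ) (x : E N) (C : ℝ), 1 ≤ N → 0 < s → s < 1 → Measurable u →
  (∀ y, |u y| ≤ C) → (∀ h, |dd u x h| ≤ C * min (‖h‖ ^ 2) 1) →
  Tendsto (fun ε : ℝ => ∫ y in {y : E N | ε < ‖x - y‖}, (u x - u y) / ‖x - y‖ ^ ((N : ℝ) + 2 * s)) (𝓝[>] 0)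
    (𝓝 (1 / 2 * ∫ h : E N, dd u x h * ‖h‖ ^ (-((N : ℝ) + 2 * s))))

end Pool.Agent.Q64.FR
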